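import Mathlib

/-!
Sobolev maps `W^{1,p}(Ω; V)` for subsets `Ω` of a Euclidean space `V`, and the weak and the strong
closures of homeomorphisms.
-/

open MeasureTheory Filter Topology Set
open scoped ENNReal NNReal ContDiff

namespace Pool.Agent.SobClos

variable {V : Type*} [NormedAddCommGroup V] [InnerProductSpace ℝ V] [FiniteDimensional ℝ V]
  [MeasurableSpace V] [BorelSpace V]

/-- `U` is a weak derivative of `u : Ω → V` on `Ω`: for all smooth real functions `φ` with compact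
support in `Ω` and all directions `v` one has `∫_Ω (∂_v φ) u = - ∫_Ω φ (U v)`. -/
def IsWeakDeriv (Ω : Set V) (u : V → V) (U : V → V →L[ℝ] V) : Prop :=
  ∀ φ : V → ℝ, ContDiff ℝ ∞ φ → HasCompactSupport φ → tsupport φ ⊆ Ω → ∀ v : V,
    ∫ x in Ω, (fderiv ℝ φ x v) • u x = - ∫ x in Ω, φ x • U x v

/-- The map `u` belongs to `W^{1,p}(Ω; V)` and `U` is its weak derivative. -/
def IsSobolev (p : ℝ≥0∞) (Ω : Set V) (u : V → V) (U : V → V →L[ℝ] V) : Prop :=
  MemLp u p (volume.restrict Ω) ∧ MemLp U p (volume.restrict Ω) ∧ IsWeakDeriv Ω u U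

/-- Weak convergence of a sequence in a normed space, tested with all continuous linear
functionals. -/
def WeakTendsto {X : Type*} [NormedAddCommGroup X] [NormedSpace ℝ X] (xk : ℕ → X) (x : X) :
    Prop :=
  ∀ Λ : X →L[ℝ] ℝ, Tendsto (fun k => Λ (xk k)) atTop (𝓝 (Λ x))

/-- Weak convergence in the Banach space `L^p(Ω; F)`. -/
def WeakConv {F : Type*} [NormedAddCommGroup F] [NormedSpace ℝ F] (p : ℝ≥0∞) [Fact (1 ≤ p)]
    (Ω : Set V) (uk : ℕ → V → F) (u : V → F) : Prop :=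
  ∃ (hk : ∀ k, MemLp (uk k) p (volume.restrict Ω)) (h : MemLp u p (volume.restrict Ω)),
    WeakTendsto (fun k => (hk k).toLp (uk k)) (h.toLp u)

/-- Convergence in the norm of `L^p(Ω; F)`. -/
def StrongConv {F : Type*} [NormedAddCommGroup F] (p : ℝ≥0∞) (Ω : Set V) (uk : ℕ → V → F)
    (u : V → F) : Prop :=
  Tendsto (fun k => eLpNorm (fun x => uk k x - u x) p (volume.restrict Ω)) atTop (𝓝 0)

/-- The restriction of `g` to `Ω` is a homeomorphism of `Ω` onto `Ω'`. -/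
def IsHomeoOnto (Ω Ω' : Set V) (g : V → V) : Prop :=
  ∃ e : Ω ≃ₜ Ω', ∀ x : Ω, g x = e x

/-- The weak closure of the homeomorphisms of `Ω` onto `Ω'` in `W^{1,p}(Ω, Ω')`: the maps `f` in
`W^{1,p}(Ω; V)`, with values almost everywhere in the closure of `Ω'`, that are weak `W^{1,p}`
limits (the maps and their derivatives converge weakly in `L^p`) of a sequence of homeomorphisms
`fk k` of `Ω` onto `Ω'` belonging to `W^{1,p}(Ω; V)`. -/
def weakClosure (p : ℝ≥0∞) [Fact (1 ≤ p)] (Ω Ω' : Set V) : Set (V → V) :=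
  {f | ∃ (U : V → V →L[ℝ] V) (fk : ℕ → V → V) (Uk : ℕ → V → V →L[ℝ] V),
    IsSobolev p Ω f U ∧ (∀ᵐ x ∂(volume.restrict Ω), f x ∈ closure Ω') ∧
    (∀ k, IsSobolev p Ω (fk k) (Uk k) ∧ IsHomeoOnto Ω Ω' (fk k)) ∧
    WeakConv p Ω fk f ∧ WeakConv p Ω Uk U}

/-- The strong closure: the same with convergence in the `W^{1,p}` norm (the maps and their
derivatives converge in the norm of `L^p`). -/
def strongClosure (p : ℝ≥0∞) [Fact (1 ≤ p)] (Ω Ω' : Set V) : Set (V → V) :=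
  {f | ∃ (U : V → V →L[ℝ] V) (fk : ℕ → V → V) (Uk : ℕ → V → V →L[ℝ] V),
    IsSobolev p Ω f U ∧ (∀ᵐ x ∂(volume.restrict Ω), f x ∈ closure Ω') ∧
    (∀ k, IsSobolev p Ω (fk k) (Uk k) ∧ IsHomeoOnto Ω Ω' (fk k)) ∧
    StrongConv p Ω fk f ∧ StrongConv p Ω Uk U}

/-- The weak and the strong closure differ in `V` for a pair of domains, for all `1 ≤ p < ∞`
simultaneously: there are a nonempty bounded open convex set `Ω` and a bi-Lipschitz homeomorphism
`Φ` of `V` onto itself such that, with the bounded open set `Ω' = Φ(Ω)`, for every `1 ≤ p < ∞` the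
strong closure of the homeomorphisms of `Ω` onto `Ω'` is a strict subset of the weak closure. -/
def ClosuresDiffer (V : Type*) [NormedAddCommGroup V] [InnerProductSpace ℝ V]
    [FiniteDimensional ℝ V] [MeasurableSpace V] [BorelSpace V] : Prop :=
  ∃ (Ω : Set V) (Φ : V ≃ₜ V),
    Ω.Nonempty ∧ IsOpen Ω ∧ Convex ℝ Ω ∧ Bornology.IsBounded Ω ∧
    IsOpen (Φ '' Ω) ∧ Bornology.IsBounded (Φ '' Ω) ∧
    (∃ K : ℝ≥0, LipschitzWith K Φ ∧ LipschitzWith K Φ.symm) ∧
    ∀ (p : ℝ≥0∞) [Fact (1 ≤ p)], p ≠ ⊤ →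
      strongClosure p Ω (Φ '' Ω) ⊂ weakClosure p Ω (Φ '' Ω)

end Pool.Agent.SobClos
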