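import Mathlib
import Pool.Agent.SobClos.Defs

/-!
Coordinates and weak partial derivatives in `ℝⁿ` (auxiliary notions used in the proofs only).
-/

open MeasureTheory Filter Topology Set
open scoped ENNReal NNReal ContDiff

namespace Pool.Agent.SobClos

/-- The Euclidean space `ℝⁿ`. -/
abbrev E (n : ℕ) := EuclideanSpace ℝ (Fin n)

/-- The `i`-th standard basis vector. -/
noncomputable abbrev stdVec {n : ℕ} (i : Fin n) : E n := EuclideanSpace.single i (1 : ℝ)

/-- `v` is a weak partial derivative `∂ᵢ u` of `u` on `Ω`. -/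
def IsWeakPartial {n : ℕ} (Ω : Set (E n)) (i : Fin n) (u v : E n → E n) : Prop :=
  ∀ φ : E n → ℝ, ContDiff ℝ ∞ φ → HasCompactSupport φ → tsupport φ ⊆ Ω →
    ∫ x in Ω, (fderiv ℝ φ x (stdVec i)) • u x = - ∫ x in Ω, φ x • v x

lemma continuous_fderiv_apply_of_smooth {n : ℕ} {φ : E n → ℝ} (h : ContDiff ℝ ∞ φ) (v : E n) :
    Continuous fun x => fderiv ℝ φ x v :=
  (h.continuous_fderiv (by simp)).clm_apply continuous_const

end Pool.Agent.SobClos
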