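import Mathlib

/-!
Weak convergence of bounded sequences in `L^p` spaces on finite measure spaces, tested with all
continuous linear functionals.
-/

open MeasureTheory Filter Topology Set
open scoped ENNReal NNReal RealInnerProductSpace

namespace Pool.Agent.SobClos

section Duality

variable {α : Type*} [MeasurableSpace α] {μ : Measure α} [IsFiniteMeasure μ]
  {V : Type*} [NormedAddCommGroup V] [InnerProductSpace ℝ V] [CompleteSpace V]

/-- Uniformly bounded functions are uniformly integrable. -/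
lemma unifIntegrable_of_bound {p : ℝ≥0∞} (hp : 1 ≤ p) (hp' : p ≠ ⊤) {y : ℕ → α → V}
    (hy : ∀ k, AEStronglyMeasurable (y k) μ) {C : ℝ} (hC : ∀ k, ∀ᵐ x ∂μ, ‖y k x‖ ≤ C) :
    UnifIntegrable y p μ := by
  refine unifIntegrable_of hp hp' hy fun ε _ => ⟨Real.toNNReal C + 1, fun i => ?_⟩
  have : ({x | Real.toNNReal C + 1 ≤ ‖y i x‖₊}.indicator (y i)) =ᵐ[μ] 0 := by
    filter_upwards [hC i] with x hx
    rw [indicator_of_notMem]
    · rfl
    · simp only [mem_ofPred_eq, not_le]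
      have h1 : ‖y i x‖₊ ≤ Real.toNNReal C := by
        rw [← NNReal.coe_le_coe, coe_nnnorm, Real.coe_toNNReal']
        exact hx.trans (le_max_left _ _)
      exact h1.trans_lt (lt_add_one _)
  rw [eLpNorm_congr_ae this]
  simp

/-- A bounded sequence converging to zero in `L²` converges to zero in every `L^p`. -/
lemma bounded_tendsto_Lp {p : ℝ≥0∞} (hp : 1 ≤ p) (hp' : p ≠ ⊤) {y : ℕ → Lp V 2 μ} {C : ℝ}
    (hC : ∀ k, ∀ᵐ x ∂μ, ‖y k x‖ ≤ C) (hy : Tendsto y atTop (𝓝 0)) :
    Tendsto (fun k => eLpNorm (y k) p μ) atTop (𝓝 0) := by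
  have h1 : TendstoInMeasure μ (fun k => (y k : α → V)) atTop ((0 : Lp V 2 μ) : α → V) :=
    tendstoInMeasure_of_tendsto_Lp hy
  have h2 : TendstoInMeasure μ (fun k => (y k : α → V)) atTop (0 : α → V) :=
    h1.congr_right (Lp.coeFn_zero V 2 μ)
  have h3 := tendsto_Lp_finite_of_tendstoInMeasure hp hp'
    (fun k => Lp.aestronglyMeasurable (y k)) (MemLp.zero' (p := p) (μ := μ) (ε := V))
    (unifIntegrable_of_bound hp hp' (fun k => Lp.aestronglyMeasurable (y k)) hC) h2
  refine h3.congr fun k => ?_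
  congr 1
  ext x
  simp

lemma weak_duality_aux {p : ℝ≥0∞} [Fact (1 ≤ p)] (hp' : p ≠ ⊤) (Λ : Lp V p μ →L[ℝ] ℝ)
    {z : ℕ → α → V} (hz : ∀ k, AEStronglyMeasurable (z k) μ) {C : ℝ}
    (hC : ∀ k, ∀ᵐ x ∂μ, ‖z k x‖ ≤ C)
    (hweak : ∀ g : Lp V 2 μ, Tendsto (fun k => ∫ x, ⟪g x, z k x⟫ ∂μ) atTop (𝓝 0))
    {ε : ℝ} (hε : 0 < ε)
    (hfreq : ∃ᶠ k in atTop, ε ≤ Λ ((MemLp.of_bound (p := p) (hz k) C (hC k)).toLp (z k))) :
    False := by
  have hp : 1 ≤ p := Fact.out
  have hz2 : ∀ k, MemLp (z k) 2 μ := fun k => MemLp.of_bound (hz k) C (hC k)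
  have hzp : ∀ k, MemLp (z k) p μ := fun k => MemLp.of_bound (hz k) C (hC k)
  set I : Set ℕ := {k | ε ≤ Λ ((hzp k).toLp (z k))} with hI
  set S : Set (Lp V 2 μ) := (fun k => (hz2 k).toLp (z k)) '' I with hS
  -- zero belongs to the closure of the convex hull
  have h0 : (0 : Lp V 2 μ) ∈ closure (convexHull ℝ S) := by
    by_contra hcon
    obtain ⟨f, u, hfu, hfS⟩ := geometric_hahn_banach_point_closed
      ((convex_convexHull ℝ S).closure) isClosed_closure hcon
    rw [map_zero] at hfu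
    obtain ⟨g, rfl⟩ := (InnerProductSpace.toDual ℝ (Lp V 2 μ)).surjective f
    have hlim : Tendsto (fun k => (InnerProductSpace.toDual ℝ (Lp V 2 μ)) g ((hz2 k).toLp (z k)))
        atTop (𝓝 0) := by
      refine (hweak g).congr fun k => ?_
      rw [InnerProductSpace.toDual_apply_apply, L2.inner_def]
      refine integral_congr_ae ?_
      filter_upwards [(hz2 k).coeFn_toLp] with x hx
      rw [hx]
    have hev := hlim.eventually (gt_mem_nhds hfu)
    obtain ⟨k, hk1, hk2⟩ := (hfreq.and_eventually hev).exists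
    have hmem : (hz2 k).toLp (z k) ∈ closure (convexHull ℝ S) :=
      subset_closure (subset_convexHull ℝ S ⟨k, hk1, rfl⟩)
    exact absurd (hfS _ hmem) (not_lt.2 hk2.le)
  -- the convex set of bounded functions on which the functional is large
  set T : Set (Lp V 2 μ) := {y | (∀ᵐ x ∂μ, ‖y x‖ ≤ C) ∧
    ∀ h : MemLp y p μ, ε ≤ Λ (h.toLp y)} with hT
  have hTconv : Convex ℝ T := by
    intro y hy y' hy' a b ha hb hab
    have hmy : MemLp y p μ := MemLp.of_bound (Lp.aestronglyMeasurable y) C hy.1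
    have hmy' : MemLp y' p μ := MemLp.of_bound (Lp.aestronglyMeasurable y') C hy'.1
    have hae : (↑(a • y + b • y') : α → V) =ᵐ[μ] fun x => a • y x + b • y' x := by
      filter_upwards [Lp.coeFn_add (a • y) (b • y'), Lp.coeFn_smul a y, Lp.coeFn_smul b y']
        with x h1 h2 h3
      rw [h1, Pi.add_apply, h2, h3, Pi.smul_apply, Pi.smul_apply]
    refine ⟨?_, fun h => ?_⟩
    · filter_upwards [hae, hy.1, hy'.1] with x h1 h2 h3
      rw [h1]
      calc ‖a • y x + b • y' x‖ ≤ ‖a • y x‖ + ‖b • y' x‖ := norm_add_le _ _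
        _ = a * ‖y x‖ + b * ‖y' x‖ := by
          rw [norm_smul, norm_smul, Real.norm_of_nonneg ha, Real.norm_of_nonneg hb]
        _ ≤ a * C + b * C := by gcongr
        _ = C := by rw [← add_mul, hab, one_mul]
    · have heq : h.toLp _ = a • hmy.toLp y + b • hmy'.toLp y' := by
        apply Lp.ext
        filter_upwards [h.coeFn_toLp, hae, Lp.coeFn_add (a • hmy.toLp y) (b • hmy'.toLp y'),
          Lp.coeFn_smul a (hmy.toLp y), Lp.coeFn_smul b (hmy'.toLp y'), hmy.coeFn_toLp,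
          hmy'.coeFn_toLp] with x h1 h2 h3 h4 h5 h6 h7
        rw [h1, h2, h3, Pi.add_apply, h4, h5, Pi.smul_apply, Pi.smul_apply, h6, h7]
      rw [heq, map_add, map_smul, map_smul, smul_eq_mul, smul_eq_mul]
      have h1 := hy.2 hmy
      have h2 := hy'.2 hmy'
      calc ε = a * ε + b * ε := by rw [← add_mul, hab, one_mul]
        _ ≤ _ := by gcongr
  have hST : S ⊆ T := by
    rintro _ ⟨k, hk, rfl⟩
    refine ⟨?_, fun h => ?_⟩
    · filter_upwards [(hz2 k).coeFn_toLp, hC k] with x h1 h2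
      rw [h1]; exact h2
    · have : h.toLp _ = (hzp k).toLp (z k) := by
        rw [MemLp.toLp_eq_toLp_iff]
        exact (hz2 k).coeFn_toLp
      rw [this]
      exact hk
  have hconvT : convexHull ℝ S ⊆ T := convexHull_min hST hTconv
  obtain ⟨y, hyS, hy0⟩ := mem_closure_iff_seq_limit.1 h0
  have hyT : ∀ k, y k ∈ T := fun k => hconvT (hyS k)
  have hyp : ∀ k, MemLp (y k) p μ :=
    fun k => MemLp.of_bound (Lp.aestronglyMeasurable (y k)) C (hyT k).1
  have hlim := bounded_tendsto_Lp hp hp' (fun k => (hyT k).1) hy0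
  have hlim2 : Tendsto (fun k => (hyp k).toLp (y k)) atTop (𝓝 (0 : Lp V p μ)) := by
    rw [tendsto_iff_norm_sub_tendsto_zero]
    have : Tendsto (fun k => (eLpNorm (y k) p μ).toReal) atTop (𝓝 0) := by
      rw [← ENNReal.toReal_zero]
      exact (ENNReal.tendsto_toReal (by simp)).comp hlim
    refine this.congr fun k => ?_
    rw [sub_zero, Lp.norm_toLp]
  have hlim3 : Tendsto (fun k => Λ ((hyp k).toLp (y k))) atTop (𝓝 0) := by
    have := (Λ.continuous.tendsto 0).comp hlim2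
    rwa [map_zero] at this
  have hge : ε ≤ 0 := ge_of_tendsto' hlim3 fun k => (hyT k).2 (hyp k)
  linarith

/-- Let `z k` be a uniformly bounded sequence of functions which is weakly null when tested with
`L²` functions. Then it is weakly null in `L^p` for every finite `p`, when tested with arbitrary
continuous linear functionals. -/
theorem weak_duality {p : ℝ≥0∞} [Fact (1 ≤ p)] (hp' : p ≠ ⊤) (Λ : Lp V p μ →L[ℝ] ℝ)
    {z : ℕ → α → V} (hz : ∀ k, AEStronglyMeasurable (z k) μ) {C : ℝ}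
    (hC : ∀ k, ∀ᵐ x ∂μ, ‖z k x‖ ≤ C)
    (hweak : ∀ g : Lp V 2 μ, Tendsto (fun k => ∫ x, ⟪g x, z k x⟫ ∂μ) atTop (𝓝 0)) :
    Tendsto (fun k => Λ ((MemLp.of_bound (p := p) (hz k) C (hC k)).toLp (z k))) atTop (𝓝 0) := by
  rw [Metric.tendsto_atTop']
  by_contra hcon
  push Not at hcon
  obtain ⟨ε, hε, hfr⟩ := hcon
  have hfreq : ∃ᶠ k in atTop,
      ε ≤ |Λ ((MemLp.of_bound (p := p) (hz k) C (hC k)).toLp (z k))| := by
    rw [frequently_atTop']
    intro a
    obtain ⟨b, hb1, hb2⟩ := hfr a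
    refine ⟨b, hb1, ?_⟩
    rwa [Real.dist_eq, sub_zero] at hb2
  have hor : (∃ᶠ k in atTop, ε ≤ Λ ((MemLp.of_bound (p := p) (hz k) C (hC k)).toLp (z k))) ∨
      (∃ᶠ k in atTop, ε ≤ (-Λ) ((MemLp.of_bound (p := p) (hz k) C (hC k)).toLp (z k))) := by
    rw [← frequently_or_distrib]
    refine hfreq.mono fun k hk => ?_
    rcases le_abs.1 hk with h | h
    · exact Or.inl h
    · exact Or.inr h
  rcases hor with h | h
  · exact weak_duality_aux hp' Λ hz hC hweak hε h
  · exact weak_duality_aux hp' (-Λ) hz hC hweak hε h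

end Duality

end Pool.Agent.SobClos
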