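import Mathlib
import Pool.Agent.SobClos.Coord
import Pool.Agent.SobClos.Weak

/-!
Lipschitz maps as elements of `W^{1,p}` and their weak convergence.
-/

open MeasureTheory Filter Topology Set Metric
open scoped ENNReal NNReal RealInnerProductSpace

namespace Pool.Agent.SobClos

variable {n : ℕ}

lemma norm_stdVec (i : Fin n) : ‖(stdVec i : E n)‖ = 1 := by simp

/-- Pointwise convergence of Lipschitz functions implies weak convergence of derivatives. -/
lemma tendsto_integral_lineDeriv {fk : ℕ → E n → ℝ} {f : E n → ℝ} {L : ℝ≥0}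
    (hfk : ∀ k, LipschitzWith L (fk k)) (hf : LipschitzWith L f)
    (hlim : ∀ x, Tendsto (fun k => fk k x) atTop (𝓝 (f x))) {a : E n → ℝ} (ha : Integrable a)
    (v : E n) :
    Tendsto (fun k => ∫ x, lineDeriv ℝ (fk k) x v * a x) atTop
      (𝓝 (∫ x, lineDeriv ℝ f x v * a x)) := by
  have hbd : ∀ {g : E n → ℝ}, LipschitzWith L g → ∀ x, ‖lineDeriv ℝ g x v‖ ≤ L * ‖v‖ :=
    fun hg x => norm_lineDeriv_le_of_lipschitz ℝ hg
  have hint : ∀ {g : E n → ℝ}, LipschitzWith L g → ∀ {b : E n → ℝ}, Integrable b →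
      Integrable fun x => lineDeriv ℝ g x v * b x := by
    intro g hg b hb
    exact hb.bdd_mul (aestronglyMeasurable_lineDeriv hg.continuous volume)
      (Eventually.of_forall (hbd hg))
  -- smooth test functions
  have hsmooth : ∀ φ : E n → ℝ, HasCompactSupport φ → ContDiff ℝ (⊤ : ℕ∞) φ →
      Tendsto (fun k => ∫ x, lineDeriv ℝ (fk k) x v * φ x) atTop
        (𝓝 (∫ x, lineDeriv ℝ f x v * φ x)) := by
    intro φ hφc hφs
    obtain ⟨D, hD⟩ : ∃ D, LipschitzWith D φ :=
      ContDiff.lipschitzWith_of_hasCompactSupport hφc hφs (by simp)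
    have e : ∀ {g : E n → ℝ}, LipschitzWith L g →
        ∫ x, lineDeriv ℝ g x v * φ x = ∫ x, lineDeriv ℝ φ x (-v) * g x := fun hg =>
      LipschitzWith.integral_lineDeriv_mul_eq hg hD hφc v
    rw [e hf]
    simp_rw [fun k => e (hfk k)]
    obtain ⟨M, hM⟩ : ∃ M, ∀ k, |fk k 0| ≤ M := by
      obtain ⟨M, hM⟩ := (hlim 0).norm.bddAbove_range
      exact ⟨M, fun k => hM ⟨k, rfl⟩⟩
    have hφ' : Continuous fun x => fderiv ℝ φ x (-v) :=
      (hφs.continuous_fderiv (by simp)).clm_apply continuous_const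
    have hφ'c : HasCompactSupport fun x => fderiv ℝ φ x (-v) := hφc.fderiv_apply ℝ _
    have hld : (fun x => lineDeriv ℝ φ x (-v)) = fun x => fderiv ℝ φ x (-v) := by
      ext x
      exact (hφs.differentiable (by simp)).differentiableAt.lineDeriv_eq_fderiv
    have hld' : ∀ x, lineDeriv ℝ φ x (-v) = fderiv ℝ φ x (-v) := fun x => congrFun hld x
    simp_rw [hld']
    refine tendsto_integral_of_dominated_convergence
      (fun x => |fderiv ℝ φ x (-v)| * (M + L * ‖x‖)) ?_ ?_ ?_ ?_
    · intro k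
      exact (hφ'.mul (hfk k).continuous).aestronglyMeasurable
    · refine Continuous.integrable_of_hasCompactSupport (by fun_prop) ?_
      exact (hφ'c.abs).mul_right
    · intro k
      refine Eventually.of_forall fun x => ?_
      rw [norm_mul, Real.norm_eq_abs, Real.norm_eq_abs]
      gcongr
      have h1 := (hfk k).dist_le_mul x 0
      rw [Real.dist_eq, dist_zero_right] at h1
      calc |fk k x| = |(fk k x - fk k 0) + fk k 0| := by ring_nf
        _ ≤ |fk k x - fk k 0| + |fk k 0| := abs_add_le _ _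
        _ ≤ L * ‖x‖ + M := by gcongr; exact hM k
        _ = M + L * ‖x‖ := add_comm _ _
    · refine Eventually.of_forall fun x => ?_
      exact (hlim x).const_mul _
  -- density
  rw [Metric.tendsto_atTop]
  intro ε hε
  set B : ℝ := L * ‖v‖ + 1 with hB
  have hBpos : 0 < B := by positivity
  obtain ⟨φ, hφc, hφs, hφa⟩ := (memLp_one_iff_integrable.2 ha).exist_eLpNorm_sub_le (by simp)
    le_rfl (ε := ε / (4 * B)) (by positivity)
  have hφi : Integrable φ := hφs.continuous.integrable_of_hasCompactSupport hφc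
  have hdiff : ∫ x, ‖a x - φ x‖ ≤ ε / (4 * B) := by
    have h1 : eLpNorm (a - φ) 1 volume = ENNReal.ofReal (∫ x, ‖(a - φ) x‖) := by
      rw [eLpNorm_one_eq_lintegral_enorm, ofReal_integral_norm_eq_lintegral_enorm (ha.sub hφi)]
    rw [h1] at hφa
    exact (ENNReal.ofReal_le_ofReal_iff (by positivity)).1 hφa
  have herr : ∀ {g : E n → ℝ}, LipschitzWith L g →
      |(∫ x, lineDeriv ℝ g x v * a x) - ∫ x, lineDeriv ℝ g x v * φ x| ≤ ε / 4 := by
    intro g hg
    rw [← integral_sub (hint hg ha) (hint hg hφi)]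
    calc |∫ x, (lineDeriv ℝ g x v * a x - lineDeriv ℝ g x v * φ x)|
        ≤ ∫ x, |lineDeriv ℝ g x v * a x - lineDeriv ℝ g x v * φ x| := abs_integral_le_integral_abs
      _ ≤ ∫ x, B * ‖a x - φ x‖ := by
          refine integral_mono_of_nonneg (Eventually.of_forall fun x => abs_nonneg _)
            ((ha.sub hφi).norm.const_mul B) (Eventually.of_forall fun x => ?_)
          simp only
          rw [← mul_sub, abs_mul, Real.norm_eq_abs]
          gcongr
          have := hbd hg x
          rw [Real.norm_eq_abs] at this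
          linarith
      _ = B * ∫ x, ‖a x - φ x‖ := integral_const_mul _ _
      _ ≤ B * (ε / (4 * B)) := by gcongr
      _ = ε / 4 := by field_simp
  obtain ⟨N, hN⟩ := (Metric.tendsto_atTop.1 (hsmooth φ hφc hφs)) (ε / 4) (by positivity)
  refine ⟨N, fun k hk => ?_⟩
  have h1 := hN k hk
  have h2 := herr (hfk k)
  have h3 := herr hf
  rw [Real.dist_eq] at h1 ⊢
  rw [abs_le] at h2 h3
  rw [abs_lt] at h1 ⊢
  constructor <;> linarith [h2.1, h2.2, h3.1, h3.2, h1.1, h1.2]

/-- All coordinate functions are `L`-Lipschitz. -/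
def CoordLip (L : ℝ≥0) (G : E n → E n) : Prop := ∀ j, LipschitzWith L fun x => G x j

/-- The vector of line derivatives of the coordinate functions. -/
noncomputable def lipPartial (G : E n → E n) (i : Fin n) : E n → E n :=
  fun x => WithLp.toLp 2 fun j => lineDeriv ℝ (fun y => G y j) x (stdVec i)

@[simp] lemma lipPartial_apply (G : E n → E n) (i j : Fin n) (x : E n) :
    lipPartial G i x j = lineDeriv ℝ (fun y => G y j) x (stdVec i) := rfl

lemma CoordLip.continuous {L : ℝ≥0} {G : E n → E n} (hG : CoordLip L G) : Continuous G := by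
  have h : Continuous fun x => WithLp.ofLp (G x) := continuous_pi fun j => (hG j).continuous
  exact (PiLp.continuous_toLp 2 _).comp h

lemma norm_le_of_coord {C : ℝ} (hC : 0 ≤ C) {v : E n} (h : ∀ j, |v j| ≤ C) :
    ‖v‖ ≤ Real.sqrt n * C := by
  rw [EuclideanSpace.norm_eq]
  calc Real.sqrt (∑ j, ‖v j‖ ^ 2) ≤ Real.sqrt (∑ _j : Fin n, C ^ 2) := by
        apply Real.sqrt_le_sqrt
        gcongr with j
        exact h j
    _ = Real.sqrt n * C := by
        rw [Finset.sum_const, Finset.card_univ, Fintype.card_fin, nsmul_eq_mul, Real.sqrt_mul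
          (by positivity), Real.sqrt_sq hC]

lemma CoordLip.norm_partial_le {L : ℝ≥0} {G : E n → E n} (hG : CoordLip L G) (i : Fin n)
    (x : E n) : ‖lipPartial G i x‖ ≤ Real.sqrt n * L := by
  refine norm_le_of_coord L.coe_nonneg fun j => ?_
  have := norm_lineDeriv_le_of_lipschitz ℝ (hG j) (x₀ := x) (v := stdVec i)
  rwa [norm_stdVec, mul_one, Real.norm_eq_abs] at this

lemma CoordLip.measurable_partial {L : ℝ≥0} {G : E n → E n} (hG : CoordLip L G) (i : Fin n)
    (μ : Measure (E n)) : AEStronglyMeasurable (lipPartial G i) μ := by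
  have h : Measurable fun x => fun j => lineDeriv ℝ (fun y => G y j) x (stdVec i) :=
    measurable_pi_lambda _ fun j => measurable_lineDeriv (hG j).continuous
  exact ((PiLp.continuous_toLp 2 _).measurable.comp h).aestronglyMeasurable

/-- The line derivatives are the weak partial derivatives. -/
lemma CoordLip.isWeakPartial {L : ℝ≥0} {G : E n → E n} (hG : CoordLip L G) (Ω : Set (E n))
    (i : Fin n) : IsWeakPartial Ω i G (lipPartial G i) := by
  intro φ hφs hφc hφΩ
  have hφ0 : ∀ x ∉ Ω, φ x = 0 := fun x hx =>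
    image_eq_zero_of_notMem_tsupport fun hcon => hx (hφΩ hcon)
  have hφ'0 : ∀ x ∉ Ω, fderiv ℝ φ x (stdVec i) = 0 := by
    intro x hx
    have : fderiv ℝ φ x = 0 := image_eq_zero_of_notMem_tsupport fun hcon =>
      hx (hφΩ (tsupport_fderiv_subset ℝ hcon))
    simp [this]
  rw [setIntegral_eq_integral_of_forall_compl_eq_zero (fun x hx => by rw [hφ'0 x hx, zero_smul]),
    setIntegral_eq_integral_of_forall_compl_eq_zero (fun x hx => by rw [hφ0 x hx, zero_smul])]
  have hφ' : Continuous fun x => fderiv ℝ φ x (stdVec i) :=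
    continuous_fderiv_apply_of_smooth hφs _
  have hφ'c : HasCompactSupport fun x => fderiv ℝ φ x (stdVec i) := hφc.fderiv_apply ℝ _
  have i1 : Integrable fun x => (fderiv ℝ φ x (stdVec i)) • G x :=
    (hφ'.smul hG.continuous).integrable_of_hasCompactSupport hφ'c.smul_right
  have hloc : LocallyIntegrable (lipPartial G i) := by
    refine (MemLp.locallyIntegrable (p := ⊤) ?_ (by simp))
    exact memLp_top_of_bound (hG.measurable_partial i _) (Real.sqrt n * L)
      (Eventually.of_forall fun x => hG.norm_partial_le i x)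
  have i2 : Integrable fun x => φ x • lipPartial G i x :=
    hloc.integrable_smul_left_of_hasCompactSupport hφs.continuous hφc
  ext j
  have c1 : (∫ x, (fderiv ℝ φ x (stdVec i)) • G x) j = ∫ x, fderiv ℝ φ x (stdVec i) * G x j := by
    have := (EuclideanSpace.proj (𝕜 := ℝ) j).integral_comp_comm i1
    simpa using this.symm
  have c2 : (∫ x, φ x • lipPartial G i x) j =
      ∫ x, φ x * lineDeriv ℝ (fun y => G y j) x (stdVec i) := by
    have := (EuclideanSpace.proj (𝕜 := ℝ) j).integral_comp_comm i2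
    simpa using this.symm
  rw [PiLp.neg_apply, c1, c2]
  obtain ⟨D, hD⟩ : ∃ D, LipschitzWith D φ :=
    ContDiff.lipschitzWith_of_hasCompactSupport hφc hφs (by simp)
  have key := LipschitzWith.integral_lineDeriv_mul_eq (μ := volume) (hG j) hD hφc (stdVec i)
  have hld : ∀ x, lineDeriv ℝ φ x (-stdVec i) = - fderiv ℝ φ x (stdVec i) := by
    intro x
    rw [(hφs.differentiable (by simp)).differentiableAt.lineDeriv_eq_fderiv, map_neg]
  simp_rw [hld] at key
  have e2 : ∫ x, φ x * lineDeriv ℝ (fun y => G y j) x (stdVec i) =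
      ∫ x, lineDeriv ℝ (fun y => G y j) x (stdVec i) * φ x := by
    congr 1; ext x; ring
  rw [e2, key]
  rw [← integral_neg]
  congr 1; ext x; ring

lemma IsWeakPartial.congr {Ω : Set (E n)} {i : Fin n} {u v u' v' : E n → E n}
    (h : IsWeakPartial Ω i u v) (hu : u =ᵐ[volume.restrict Ω] u')
    (hv : v =ᵐ[volume.restrict Ω] v') : IsWeakPartial Ω i u' v' := by
  intro φ h1 h2 h3
  have e1 : ∫ x in Ω, (fderiv ℝ φ x (stdVec i)) • u x =
      ∫ x in Ω, (fderiv ℝ φ x (stdVec i)) • u' x :=
    integral_congr_ae (by filter_upwards [hu] with x hx; rw [hx])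
  have e2 : ∫ x in Ω, φ x • v x = ∫ x in Ω, φ x • v' x :=
    integral_congr_ae (by filter_upwards [hv] with x hx; rw [hx])
  rw [← e1, ← e2]
  exact h φ h1 h2 h3

/-- The linear map `w ↦ (v ↦ vᵢ w)`. -/
noncomputable def colMap (i : Fin n) : E n →L[ℝ] (E n →L[ℝ] E n) :=
  ContinuousLinearMap.smulRightL ℝ (E n) (E n) (EuclideanSpace.proj i)

@[simp] lemma colMap_apply (i : Fin n) (w v : E n) : colMap i w v = v i • w := rfl

/-- The almost everywhere derivative of a Lipschitz map. -/
noncomputable def lipDeriv (G : E n → E n) (x : E n) : E n →L[ℝ] E n :=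
  ∑ i, colMap i (lipPartial G i x)

lemma lipDeriv_apply (G : E n → E n) (x v : E n) :
    lipDeriv G x v = ∑ i, v i • lipPartial G i x := by
  unfold lipDeriv
  rw [_root_.sum_apply]
  rfl

lemma lipDeriv_stdVec (G : E n → E n) (x : E n) (i : Fin n) :
    lipDeriv G x (stdVec i) = lipPartial G i x := by
  rw [lipDeriv_apply, Finset.sum_eq_single i]
  · simp
  · intro j _ hj
    simp [hj]
  · simp

lemma sum_smul_stdVec (v : E n) : v = ∑ i, v i • (stdVec i : E n) := by
  ext j
  simp [Finset.sum_apply, Pi.single_apply]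

lemma CoordLip.locallyIntegrable_partial {L : ℝ≥0} {G : E n → E n} (hG : CoordLip L G)
    (i : Fin n) : LocallyIntegrable (lipPartial G i) := by
  refine (MemLp.locallyIntegrable (p := ⊤) ?_ (by simp))
  exact memLp_top_of_bound (hG.measurable_partial i _) (Real.sqrt n * L)
    (Eventually.of_forall fun x => hG.norm_partial_le i x)

/-- The almost everywhere derivative is the weak derivative. -/
lemma CoordLip.isWeakDeriv {L : ℝ≥0} {G : E n → E n} (hG : CoordLip L G) {Ω : Set (E n)} :
    IsWeakDeriv Ω G (lipDeriv G) := by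
  intro φ h1 h2 h3 v
  have hφ' : ∀ i : Fin n, Continuous fun x => fderiv ℝ φ x (stdVec i) := fun i =>
    continuous_fderiv_apply_of_smooth h1 _
  have hφ'c : ∀ i : Fin n, HasCompactSupport fun x => fderiv ℝ φ x (stdVec i) := fun i =>
    h2.fderiv_apply ℝ _
  have i1 : ∀ i ∈ (Finset.univ : Finset (Fin n)),
      Integrable (fun x => v i • ((fderiv ℝ φ x (stdVec i)) • G x)) (volume.restrict Ω) :=
    fun i _ => ((((hφ' i).smul hG.continuous).integrable_of_hasCompactSupport
      (hφ'c i).smul_right).restrict).smul (v i)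
  have i2 : ∀ i ∈ (Finset.univ : Finset (Fin n)),
      Integrable (fun x => v i • (φ x • lipPartial G i x)) (volume.restrict Ω) :=
    fun i _ => (((hG.locallyIntegrable_partial i).integrable_smul_left_of_hasCompactSupport
      h1.continuous h2).restrict).smul (v i)
  have e1 : ∫ x in Ω, (fderiv ℝ φ x v) • G x =
      ∑ i, v i • ∫ x in Ω, (fderiv ℝ φ x (stdVec i)) • G x := by
    have e : ∀ x, (fderiv ℝ φ x v) • G x = ∑ i, v i • ((fderiv ℝ φ x (stdVec i)) • G x) := by
      intro x
      conv_lhs => rw [sum_smul_stdVec v, map_sum, Finset.sum_smul]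
      refine Finset.sum_congr rfl fun i _ => ?_
      rw [map_smul, smul_eq_mul, mul_smul]
    refine (integral_congr_ae (Eventually.of_forall e)).trans ?_
    refine (integral_finsetSum Finset.univ i1).trans ?_
    refine Finset.sum_congr rfl fun i _ => ?_
    exact integral_smul _ _
  have e2 : ∫ x in Ω, φ x • lipDeriv G x v = ∑ i, v i • ∫ x in Ω, φ x • lipPartial G i x := by
    have e : ∀ x, φ x • lipDeriv G x v = ∑ i, v i • (φ x • lipPartial G i x) := by
      intro x
      rw [lipDeriv_apply, Finset.smul_sum]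
      refine Finset.sum_congr rfl fun i _ => ?_
      rw [smul_comm]
    refine (integral_congr_ae (Eventually.of_forall e)).trans ?_
    refine (integral_finsetSum Finset.univ i2).trans ?_
    refine Finset.sum_congr rfl fun i _ => ?_
    exact integral_smul _ _
  rw [e1, e2, ← Finset.sum_neg_distrib]
  refine Finset.sum_congr rfl fun i _ => ?_
  rw [hG.isWeakPartial Ω i φ h1 h2 h3, smul_neg]

lemma IsWeakDeriv.congr {Ω : Set (E n)} {u u' : E n → E n} {U U' : E n → E n →L[ℝ] E n}
    (h : IsWeakDeriv Ω u U) (hu : u =ᵐ[volume.restrict Ω] u')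
    (hU : U =ᵐ[volume.restrict Ω] U') : IsWeakDeriv Ω u' U' := by
  intro φ h1 h2 h3 v
  have e1 : ∫ x in Ω, (fderiv ℝ φ x v) • u x = ∫ x in Ω, (fderiv ℝ φ x v) • u' x :=
    integral_congr_ae (by filter_upwards [hu] with x hx; rw [hx])
  have e2 : ∫ x in Ω, φ x • U x v = ∫ x in Ω, φ x • U' x v :=
    integral_congr_ae (by filter_upwards [hU] with x hx; rw [hx])
  rw [← e1, ← e2]
  exact h φ h1 h2 h3 v

/-- A weak derivative yields weak partial derivatives. -/
lemma IsWeakDeriv.isWeakPartial {Ω : Set (E n)} {u : E n → E n} {U : E n → E n →L[ℝ] E n}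
    (h : IsWeakDeriv Ω u U) (i : Fin n) : IsWeakPartial Ω i u (fun x => U x (stdVec i)) :=
  fun φ h1 h2 h3 => h φ h1 h2 h3 (stdVec i)

/-- A finite sum of compositions with continuous linear maps in `L^p`. -/
lemma compLp_sum_sub {α ι F G : Type*} [MeasurableSpace α] {μ : Measure α} [Fintype ι]
    [NormedAddCommGroup F] [NormedSpace ℝ F] [NormedAddCommGroup G] [NormedSpace ℝ G]
    {p : ℝ≥0∞} [Fact (1 ≤ p)] (A : ι → F →L[ℝ] G) {f g : ι → α → F}
    (hf : MemLp (fun x => ∑ i, A i (f i x)) p μ) (hg : MemLp (fun x => ∑ i, A i (g i x)) p μ)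
    (h : ∀ i, MemLp (fun x => f i x - g i x) p μ) :
    hf.toLp _ - hg.toLp _ = ∑ i, (A i).compLpL p μ ((h i).toLp _) := by
  apply Lp.ext
  have h1 : ∀ᵐ x ∂μ, ∀ i, ((A i).compLpL p μ ((h i).toLp _) : α → G) x = A i (f i x - g i x) := by
    rw [ae_all_iff]
    intro i
    filter_upwards [(A i).coeFn_compLpL ((h i).toLp _), (h i).coeFn_toLp] with x h1 h2
    rw [h1, h2]
  filter_upwards [Lp.coeFn_sub (hf.toLp _) (hg.toLp _), hf.coeFn_toLp, hg.coeFn_toLp,
    Lp.coeFn_finsetSum Finset.univ (fun i => (A i).compLpL p μ ((h i).toLp _)), h1] with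
    x h2 h3 h4 h5 h6
  rw [h2, Pi.sub_apply, h3, h4, h5]
  simp only [Finset.sum_apply]
  rw [← Finset.sum_sub_distrib]
  refine Finset.sum_congr rfl fun i _ => ?_
  rw [h6 i, map_sub]

section Elements

variable {p : ℝ≥0∞} [Fact (1 ≤ p)] {Ω : Set (E n)}

lemma isFiniteMeasure_restrict_of_bounded (hΩb : Bornology.IsBounded Ω) :
    IsFiniteMeasure ((volume : Measure (E n)).restrict Ω) :=
  isFiniteMeasure_restrict.2 hΩb.measure_lt_top.ne

lemma exists_bound_of_coordLip {L : ℝ≥0} {Gk : ℕ → E n → E n} {G : E n → E n}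
    (hGk : ∀ k, CoordLip L (Gk k))
    (hlim : ∀ x, Tendsto (fun k => Gk k x) atTop (𝓝 (G x))) (hΩb : Bornology.IsBounded Ω) :
    ∃ C : ℝ, ∀ k, ∀ x ∈ Ω, ‖Gk k x‖ ≤ C := by
  obtain ⟨M, hM⟩ : ∃ M, ∀ k, ‖Gk k 0‖ ≤ M := by
    obtain ⟨M, hM⟩ := (hlim 0).norm.bddAbove_range
    exact ⟨M, fun k => hM ⟨k, rfl⟩⟩
  obtain ⟨R, hR⟩ := hΩb.exists_norm_le
  have hR' : ∀ x ∈ Ω, ‖x‖ ≤ |R| := fun x hx => (hR x hx).trans (le_abs_self R)
  refine ⟨Real.sqrt n * (L * |R|) + M, fun k x hx => ?_⟩
  have h1 : ‖Gk k x - Gk k 0‖ ≤ Real.sqrt n * (L * |R|) := by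
    refine norm_le_of_coord (by positivity) fun j => ?_
    have h2 := (hGk k j).dist_le_mul x 0
    rw [Real.dist_eq, dist_zero_right] at h2
    calc |(Gk k x - Gk k 0) j| = |Gk k x j - Gk k 0 j| := by simp
      _ ≤ L * ‖x‖ := h2
      _ ≤ L * |R| := by gcongr; exact hR' x hx
  calc ‖Gk k x‖ = ‖(Gk k x - Gk k 0) + Gk k 0‖ := by rw [sub_add_cancel]
    _ ≤ ‖Gk k x - Gk k 0‖ + ‖Gk k 0‖ := norm_add_le _ _
    _ ≤ _ := by gcongr; exact hM k

lemma CoordLip.memLp {L : ℝ≥0} {G : E n → E n} (hG : CoordLip L G) (hΩ : IsOpen Ω)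
    (hΩb : Bornology.IsBounded Ω) (q : ℝ≥0∞) : MemLp G q (volume.restrict Ω) := by
  have := isFiniteMeasure_restrict_of_bounded hΩb
  obtain ⟨C, hC⟩ := exists_bound_of_coordLip (G := G) (Gk := fun _ => G) (fun _ => hG)
    (fun x => tendsto_const_nhds) hΩb
  exact MemLp.of_bound hG.continuous.aestronglyMeasurable C
    (ae_restrict_of_forall_mem hΩ.measurableSet fun x hx => hC 0 x hx)

lemma CoordLip.memLp_partial {L : ℝ≥0} {G : E n → E n} (hG : CoordLip L G)
    (hΩb : Bornology.IsBounded Ω) (i : Fin n) (q : ℝ≥0∞) :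
    MemLp (lipPartial G i) q (volume.restrict Ω) := by
  have := isFiniteMeasure_restrict_of_bounded hΩb
  exact MemLp.of_bound (hG.measurable_partial i _) (Real.sqrt n * L)
    (Eventually.of_forall fun x => hG.norm_partial_le i x)

lemma CoordLip.memLp_deriv {L : ℝ≥0} {G : E n → E n} (hG : CoordLip L G)
    (hΩb : Bornology.IsBounded Ω) (q : ℝ≥0∞) :
    MemLp (lipDeriv G) q (volume.restrict Ω) :=
  memLp_finsetSum _ fun i _ => (colMap i).comp_memLp' (hG.memLp_partial hΩb i q)

lemma CoordLip.isSobolev {L : ℝ≥0} {G : E n → E n} (hG : CoordLip L G) (hΩ : IsOpen Ω)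
    (hΩb : Bornology.IsBounded Ω) (p : ℝ≥0∞) : IsSobolev p Ω G (lipDeriv G) :=
  ⟨hG.memLp hΩ hΩb p, hG.memLp_deriv hΩb p, hG.isWeakDeriv⟩

/-- Weak convergence of the functions. -/
theorem weakConv_fun (hp' : p ≠ ⊤) {L : ℝ≥0} {Gk : ℕ → E n → E n} {G : E n → E n}
    (hGk : ∀ k, CoordLip L (Gk k)) (hG : CoordLip L G)
    (hlim : ∀ x, Tendsto (fun k => Gk k x) atTop (𝓝 (G x))) (hΩ : IsOpen Ω)
    (hΩb : Bornology.IsBounded Ω) : WeakConv p Ω Gk G := by
  have := isFiniteMeasure_restrict_of_bounded hΩb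
  refine ⟨fun k => (hGk k).memLp hΩ hΩb p, hG.memLp hΩ hΩb p, fun Λ₀ => ?_⟩
  obtain ⟨C, hC⟩ := exists_bound_of_coordLip hGk hlim hΩb
  obtain ⟨C', hC'⟩ := exists_bound_of_coordLip (G := G) (Gk := fun _ => G) (fun _ => hG)
    (fun x => tendsto_const_nhds) hΩb
  have hz : ∀ k, AEStronglyMeasurable (fun x => Gk k x - G x) (volume.restrict Ω) := fun k =>
    ((hGk k).continuous.sub hG.continuous).aestronglyMeasurable
  have hzC : ∀ k, ∀ᵐ x ∂(volume.restrict Ω), ‖Gk k x - G x‖ ≤ C + C' := fun k =>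
    ae_restrict_of_forall_mem hΩ.measurableSet fun x hx =>
      (norm_sub_le _ _).trans (add_le_add (hC k x hx) (hC' 0 x hx))
  have hw0 : Tendsto (fun k => Λ₀ ((MemLp.of_bound (p := p) (hz k) (C + C') (hzC k)).toLp
      (fun x => Gk k x - G x))) atTop (𝓝 0) := by
    refine weak_duality hp' Λ₀ hz hzC fun g => ?_
    have hgi : Integrable g (volume.restrict Ω) :=
      (Lp.memLp g).integrable (by norm_num)
    have : Tendsto (fun k => ∫ x in Ω, ⟪g x, Gk k x - G x⟫) atTop (𝓝 (∫ x in Ω, (0 : ℝ))) := by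
      refine tendsto_integral_of_dominated_convergence (fun x => ‖g x‖ * (C + C')) ?_ ?_ ?_ ?_
      · intro k
        exact hgi.1.inner (hz k)
      · exact hgi.norm.mul_const _
      · intro k
        filter_upwards [hzC k] with x hx
        calc ‖⟪g x, Gk k x - G x⟫‖ ≤ ‖g x‖ * ‖Gk k x - G x‖ := norm_inner_le_norm _ _
          _ ≤ _ := by gcongr
      · refine Eventually.of_forall fun x => ?_
        have h1 : Tendsto (fun k => Gk k x - G x) atTop (𝓝 0) := by
          simpa using (hlim x).sub_const (G x)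
        simpa using tendsto_const_nhds.inner (𝕜 := ℝ) (x := g x) h1
    simpa using this
  have hdiff : ∀ k, Λ₀ ((MemLp.of_bound (p := p) (hz k) (C + C') (hzC k)).toLp
      (fun x => Gk k x - G x)) = Λ₀ (((hGk k).memLp hΩ hΩb p).toLp (Gk k)) -
      Λ₀ ((hG.memLp hΩ hΩb p).toLp G) := fun k =>
    Λ₀.map_sub (((hGk k).memLp hΩ hΩb p).toLp (Gk k)) ((hG.memLp hΩ hΩb p).toLp G)
  have := (hw0.congr hdiff).add_const (Λ₀ ((hG.memLp hΩ hΩb p).toLp G))
  simpa using this

/-- Weak convergence of the derivatives. -/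
theorem weakConv_deriv (hp' : p ≠ ⊤) {L : ℝ≥0} {Gk : ℕ → E n → E n} {G : E n → E n}
    (hGk : ∀ k, CoordLip L (Gk k)) (hG : CoordLip L G)
    (hlim : ∀ x, Tendsto (fun k => Gk k x) atTop (𝓝 (G x))) (hΩ : IsOpen Ω)
    (hΩb : Bornology.IsBounded Ω) :
    WeakConv p Ω (fun k => lipDeriv (Gk k)) (lipDeriv G) := by
  have := isFiniteMeasure_restrict_of_bounded hΩb
  refine ⟨fun k => (hGk k).memLp_deriv hΩb p, hG.memLp_deriv hΩb p, fun Λ' => ?_⟩
  have hz' : ∀ i k, AEStronglyMeasurable (fun x => lipPartial (Gk k) i x - lipPartial G i x)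
      (volume.restrict Ω) := fun i k =>
    ((hGk k).measurable_partial i _).sub (hG.measurable_partial i _)
  have hzC' : ∀ i k, ∀ᵐ x ∂(volume.restrict Ω),
      ‖lipPartial (Gk k) i x - lipPartial G i x‖ ≤ Real.sqrt n * L + Real.sqrt n * L :=
    fun i k => Eventually.of_forall fun x => (norm_sub_le _ _).trans
      (add_le_add ((hGk k).norm_partial_le i x) (hG.norm_partial_le i x))
  have hwi : ∀ i, Tendsto (fun k => (Λ'.comp ((colMap i).compLpL p (volume.restrict Ω)))
      ((MemLp.of_bound (p := p) (hz' i k)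
      (Real.sqrt n * L + Real.sqrt n * L) (hzC' i k)).toLp
      (fun x => lipPartial (Gk k) i x - lipPartial G i x))) atTop (𝓝 0) := by
    intro i
    refine weak_duality hp' _ (hz' i) (hzC' i) fun g => ?_
    have hgi : Integrable g (volume.restrict Ω) :=
      (Lp.memLp g).integrable (by norm_num)
    have hgj : ∀ j, Integrable (fun x => g x j) (volume.restrict Ω) := by
      intro j
      exact (EuclideanSpace.proj (𝕜 := ℝ) j).integrable_comp hgi
    have hint : ∀ {F : E n → E n}, CoordLip L F → ∀ j, Integrable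
        (fun x => lineDeriv ℝ (fun y => F y j) x (stdVec i) * g x j) (volume.restrict Ω) := by
      intro F hF j
      refine (hgj j).bdd_mul (c := L) (aestronglyMeasurable_lineDeriv (hF j).continuous _) ?_
      refine Eventually.of_forall fun x => ?_
      have := norm_lineDeriv_le_of_lipschitz ℝ (hF j) (x₀ := x) (v := stdVec i)
      rwa [norm_stdVec, mul_one] at this
    have hj : ∀ j, Tendsto (fun k => ∫ x in Ω, lineDeriv ℝ (fun y => Gk k y j) x (stdVec i) *
        g x j) atTop (𝓝 (∫ x in Ω, lineDeriv ℝ (fun y => G y j) x (stdVec i) * g x j)) := by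
      intro j
      have hgind : Integrable (Ω.indicator fun x => g x j) :=
        (integrable_indicator_iff hΩ.measurableSet).2 (hgj j)
      have e : ∀ f : E n → ℝ, ∫ x in Ω, lineDeriv ℝ f x (stdVec i) * g x j =
          ∫ x, lineDeriv ℝ f x (stdVec i) * Ω.indicator (fun x => g x j) x := by
        intro f
        rw [← integral_indicator hΩ.measurableSet]
        congr 1
        ext x
        by_cases hx : x ∈ Ω
        · simp [indicator_of_mem hx]
        · simp [indicator_of_notMem hx]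
      simp_rw [e]
      exact tendsto_integral_lineDeriv (fun k => hGk k j) (hG j) (fun x => by
        have := ((EuclideanSpace.proj (𝕜 := ℝ) j).continuous.tendsto (G x)).comp (hlim x)
        exact this) hgind (stdVec i)
    have hsum : Tendsto (fun k => ∑ j, ((∫ x in Ω, lineDeriv ℝ (fun y => Gk k y j) x (stdVec i) *
        g x j) - ∫ x in Ω, lineDeriv ℝ (fun y => G y j) x (stdVec i) * g x j)) atTop (𝓝 0) := by
      have : Tendsto (fun k => ∑ j, ((∫ x in Ω, lineDeriv ℝ (fun y => Gk k y j) x (stdVec i) *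
        g x j) - ∫ x in Ω, lineDeriv ℝ (fun y => G y j) x (stdVec i) * g x j)) atTop
          (𝓝 (∑ _j : Fin n, (0 : ℝ))) := by
        refine tendsto_finsetSum _ fun j _ => ?_
        simpa using (hj j).sub_const
          (∫ x in Ω, lineDeriv ℝ (fun y => G y j) x (stdVec i) * g x j)
      simpa using this
    refine hsum.congr fun k => ?_
    have e1 : ∀ x, ⟪g x, lipPartial (Gk k) i x - lipPartial G i x⟫ =
        ∑ j, (lineDeriv ℝ (fun y => Gk k y j) x (stdVec i) * g x j -
          lineDeriv ℝ (fun y => G y j) x (stdVec i) * g x j) := by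
      intro x
      refine (PiLp.inner_apply _ _).trans (Finset.sum_congr rfl fun j _ => ?_)
      simp
      ring
    have e2 : ∀ j ∈ (Finset.univ : Finset (Fin n)), Integrable
        (fun x => lineDeriv ℝ (fun y => Gk k y j) x (stdVec i) * g x j -
          lineDeriv ℝ (fun y => G y j) x (stdVec i) * g x j) (volume.restrict Ω) :=
      fun j _ => (hint (hGk k) j).sub (hint hG j)
    have e3 := integral_finsetSum Finset.univ e2
    refine Eq.symm ((integral_congr_ae (Eventually.of_forall e1)).trans (e3.trans ?_))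
    refine Finset.sum_congr rfl fun j _ => ?_
    exact integral_sub (hint (hGk k) j) (hint hG j)
  have hsum : Tendsto (fun k => ∑ i, (Λ'.comp ((colMap i).compLpL p (volume.restrict Ω)))
      ((MemLp.of_bound (p := p) (hz' i k)
      (Real.sqrt n * L + Real.sqrt n * L) (hzC' i k)).toLp
      (fun x => lipPartial (Gk k) i x - lipPartial G i x))) atTop (𝓝 0) := by
    have h2 := tendsto_finsetSum (Finset.univ : Finset (Fin n)) fun i _ => hwi i
    simpa using h2
  have hdiff : ∀ k, ∑ i, (Λ'.comp ((colMap i).compLpL p (volume.restrict Ω)))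
      ((MemLp.of_bound (p := p) (hz' i k)
      (Real.sqrt n * L + Real.sqrt n * L) (hzC' i k)).toLp
      (fun x => lipPartial (Gk k) i x - lipPartial G i x)) =
      Λ' (((hGk k).memLp_deriv hΩb p).toLp (lipDeriv (Gk k))) -
      Λ' ((hG.memLp_deriv hΩb p).toLp (lipDeriv G)) := by
    intro k
    have e3 : ((hGk k).memLp_deriv hΩb p).toLp (lipDeriv (Gk k)) -
        (hG.memLp_deriv hΩb p).toLp (lipDeriv G) =
        ∑ i, (colMap i).compLpL p (volume.restrict Ω) ((MemLp.of_bound (p := p) (hz' i k)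
        (Real.sqrt n * L + Real.sqrt n * L) (hzC' i k)).toLp
        (fun x => lipPartial (Gk k) i x - lipPartial G i x)) :=
      compLp_sum_sub (fun i => colMap i) (f := fun i => lipPartial (Gk k) i)
        (g := fun i => lipPartial G i) ((hGk k).memLp_deriv hΩb p) (hG.memLp_deriv hΩb p)
        (fun i => MemLp.of_bound (p := p) (hz' i k)
          (Real.sqrt n * L + Real.sqrt n * L) (hzC' i k))
    have e4 : Λ' (((hGk k).memLp_deriv hΩb p).toLp (lipDeriv (Gk k)) -
        (hG.memLp_deriv hΩb p).toLp (lipDeriv G)) =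
        ∑ i, (Λ'.comp ((colMap i).compLpL p (volume.restrict Ω)))
        ((MemLp.of_bound (p := p) (hz' i k)
        (Real.sqrt n * L + Real.sqrt n * L) (hzC' i k)).toLp
        (fun x => lipPartial (Gk k) i x - lipPartial G i x)) :=
      (congrArg (fun w => Λ' w) e3).trans (map_sum Λ' _ _)
    exact e4.symm.trans (Λ'.map_sub _ _)
  have := (hsum.congr hdiff).add_const (Λ' ((hG.memLp_deriv hΩb p).toLp (lipDeriv G)))
  simpa using this

end Elements

end Pool.Agent.SobClos
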