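import Mathlib

/-!
The multi-scale Lipschitz profile `needleH` on the half plane.
-/

open Set Metric

namespace Pool.Agent.SobClos

/-- Positive needles: the lower half plane together with the vertical needles of height `3^(-k)`
over the points `2 j / 3^k`. -/
def needlesPos : Set (ℝ × ℝ) :=
  {q | q.2 ≤ 0 ∨ ∃ (k : ℕ) (j : ℤ), q.1 * 3 ^ k = 2 * (j : ℝ) ∧ q.2 * 3 ^ k ≤ 1}

/-- Negative needles: the lower half plane together with the vertical needles of height `3^(-k)`
over the points `(2 j + 1) / 3^k`. -/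
def needlesNeg : Set (ℝ × ℝ) :=
  {q | q.2 ≤ 0 ∨ ∃ (k : ℕ) (j : ℤ), q.1 * 3 ^ k = 2 * (j : ℝ) + 1 ∧ q.2 * 3 ^ k ≤ 1}

/-- The profile function. -/
noncomputable def needleH (q : ℝ × ℝ) : ℝ :=
  4 * (infDist q needlesNeg - infDist q needlesPos)

lemma needlesPos_nonempty : needlesPos.Nonempty := ⟨(0, 0), Or.inl le_rfl⟩

lemma needlesNeg_nonempty : needlesNeg.Nonempty := ⟨(0, 0), Or.inl le_rfl⟩

lemma needleH_lipschitz : LipschitzWith 8 needleH := by
  have h1 : LipschitzWith 1 (fun q : ℝ × ℝ => infDist q needlesNeg) := lipschitz_infDist_pt _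
  have h2 : LipschitzWith 1 (fun q : ℝ × ℝ => infDist q needlesPos) := lipschitz_infDist_pt _
  refine LipschitzWith.of_dist_le_mul fun x y => ?_
  have e1 := h1.dist_le_mul x y
  have e2 := h2.dist_le_mul x y
  rw [Real.dist_eq] at e1 e2 ⊢
  simp only [NNReal.coe_one, one_mul] at e1 e2
  have : needleH x - needleH y = 4 * (infDist x needlesNeg - infDist y needlesNeg) -
      4 * (infDist x needlesPos - infDist y needlesPos) := by
    unfold needleH; ring
  rw [this]
  calc |4 * (infDist x needlesNeg - infDist y needlesNeg) -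
      4 * (infDist x needlesPos - infDist y needlesPos)|
      ≤ |4 * (infDist x needlesNeg - infDist y needlesNeg)| +
        |4 * (infDist x needlesPos - infDist y needlesPos)| := abs_sub _ _
    _ = 4 * |infDist x needlesNeg - infDist y needlesNeg| +
        4 * |infDist x needlesPos - infDist y needlesPos| := by
        rw [abs_mul, abs_mul]; norm_num
    _ ≤ 4 * dist x y + 4 * dist x y := by gcongr
    _ = ((8 : NNReal) : ℝ) * dist x y := by
        push_cast
        ring

lemma needleH_continuous : Continuous needleH := needleH_lipschitz.continuous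

lemma needleH_of_nonpos {q : ℝ × ℝ} (hq : q.2 ≤ 0) : needleH q = 0 := by
  unfold needleH
  rw [infDist_zero_of_mem (show q ∈ needlesNeg from Or.inl hq),
    infDist_zero_of_mem (show q ∈ needlesPos from Or.inl hq)]
  simp

lemma infDist_needlesNeg_le {u t : ℝ} (ht : 0 ≤ t) : infDist (u, t) needlesNeg ≤ t := by
  have : (u, (0 : ℝ)) ∈ needlesNeg := Or.inl le_rfl
  refine (infDist_le_dist_of_mem this).trans ?_
  rw [Prod.dist_eq]
  simp [abs_of_nonneg ht, ht]

lemma infDist_needlesPos_le {u t : ℝ} (ht : 0 ≤ t) : infDist (u, t) needlesPos ≤ t := by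
  have : (u, (0 : ℝ)) ∈ needlesPos := Or.inl le_rfl
  refine (infDist_le_dist_of_mem this).trans ?_
  rw [Prod.dist_eq]
  simp [abs_of_nonneg ht, ht]

lemma abs_needleH_le {u t : ℝ} (ht : 0 ≤ t) : |needleH (u, t)| ≤ 4 * t := by
  unfold needleH
  have h1 := infDist_needlesNeg_le (u := u) ht
  have h2 := infDist_needlesPos_le (u := u) ht
  have h3 : 0 ≤ infDist (u, t) needlesNeg := infDist_nonneg
  have h4 : 0 ≤ infDist (u, t) needlesPos := infDist_nonneg
  rw [abs_le]
  constructor <;> linarith

/-- Two needles of opposite sign are far apart relative to the height. -/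
lemma needle_sep {u v t s : ℝ} {k i : ℕ} {m l : ℤ} (ht : 0 < t)
    (hu : u * 3 ^ k = (m : ℝ)) (hkt : t * 3 ^ k ≤ 1)
    (hv : v * 3 ^ i = (l : ℝ)) (his : s * 3 ^ i ≤ 1) (hodd : Odd (m + l)) :
    t / 2 ≤ max |u - v| |t - s| := by
  by_cases hs : s ≤ t / 2
  · refine le_max_of_le_right ?_
    rw [abs_of_nonneg (by linarith)]
    linarith
  · push Not at hs
    refine le_max_of_le_left ?_
    -- the common scale
    set M := max i k with hM
    have hMi : i ≤ M := le_max_left _ _
    have hMk : k ≤ M := le_max_right _ _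
    have hpow : ∀ j : ℕ, (0 : ℝ) < 3 ^ j := fun j => by positivity
    have hu' : u * 3 ^ M = ((m * 3 ^ (M - k) : ℤ) : ℝ) := by
      have : (3 : ℝ) ^ M = 3 ^ k * 3 ^ (M - k) := by
        rw [← pow_add]; congr 1; omega
      rw [this, ← mul_assoc, hu]; push_cast; ring
    have hv' : v * 3 ^ M = ((l * 3 ^ (M - i) : ℤ) : ℝ) := by
      have : (3 : ℝ) ^ M = 3 ^ i * 3 ^ (M - i) := by
        rw [← pow_add]; congr 1; omega
      rw [this, ← mul_assoc, hv]; push_cast; ring
    have hodd' : Odd (m * 3 ^ (M - k) - l * 3 ^ (M - i)) := by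
      have h3 : ∀ j : ℕ, Odd ((3 : ℤ) ^ j) := fun j => Odd.pow (by decide)
      rcases Int.even_or_odd m with hm | hm
      · have hl : Odd l := by
          rcases Int.even_or_odd l with hl | hl
          · exact absurd hodd (by simpa using (hm.add hl))
          · exact hl
        have : Even (m * 3 ^ (M - k)) := hm.mul_right _
        exact this.sub_odd (hl.mul (h3 _))
      · have hl : Even l := by
          rcases Int.even_or_odd l with hl | hl
          · exact hl
          · exact absurd hodd (by simpa using (hm.add_odd hl))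
        have : Even (l * 3 ^ (M - i)) := hl.mul_right _
        exact (hm.mul (h3 _)).sub_even this
    have hne : (m * 3 ^ (M - k) - l * 3 ^ (M - i)) ≠ 0 := by
      intro h0
      rw [h0] at hodd'
      exact absurd hodd' (by decide)
    have habs : (1 : ℝ) ≤ |(u - v) * 3 ^ M| := by
      have : (u - v) * 3 ^ M = ((m * 3 ^ (M - k) - l * 3 ^ (M - i) : ℤ) : ℝ) := by
        rw [sub_mul, hu', hv']; push_cast; ring
      rw [this, ← Int.cast_abs]
      exact_mod_cast Int.one_le_abs hne
    rw [abs_mul, abs_of_pos (hpow M)] at habs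
    have key : t / 2 * 3 ^ M ≤ 1 := by
      rcases max_choice i k with h | h
      · -- M = i
        have hMi' : M = i := h
        rw [hMi']
        calc t / 2 * 3 ^ i ≤ s * 3 ^ i := by gcongr
          _ ≤ 1 := his
      · have hMk' : M = k := h
        rw [hMk']
        calc t / 2 * 3 ^ k ≤ t * 3 ^ k := by gcongr; linarith
          _ ≤ 1 := hkt
    have := key.trans habs
    exact le_of_mul_le_mul_right this (hpow M)

lemma needleH_pos {u t : ℝ} {k : ℕ} {m : ℤ} (ht : 0 < t) (hm : Even m)
    (hu : u * 3 ^ k = (m : ℝ)) (hkt : t * 3 ^ k ≤ 1) : 2 * t ≤ needleH (u, t) := by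
  have hmem : (u, t) ∈ needlesPos := by
    obtain ⟨j, hj⟩ := hm
    refine Or.inr ⟨k, j, ?_, hkt⟩
    rw [hu, hj]; push_cast; ring
  have h1 : infDist (u, t) needlesPos = 0 := infDist_zero_of_mem hmem
  have h2 : t / 2 ≤ infDist (u, t) needlesNeg := by
    rw [le_infDist needlesNeg_nonempty]
    rintro ⟨v, s⟩ hvs
    rw [Prod.dist_eq]
    simp only [Real.dist_eq]
    rcases hvs with hs | ⟨i, j, hv, his⟩
    · simp only at hs
      refine le_max_of_le_right ?_
      rw [abs_of_nonneg (by linarith)]
      linarith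
    · simp only at hv his
      have hv' : v * 3 ^ i = ((2 * j + 1 : ℤ) : ℝ) := by rw [hv]; push_cast; ring
      exact needle_sep ht hu hkt hv' his (hm.add_odd ⟨j, rfl⟩)
  unfold needleH
  rw [h1]
  linarith

lemma needleH_neg {u t : ℝ} {k : ℕ} {m : ℤ} (ht : 0 < t) (hm : Odd m)
    (hu : u * 3 ^ k = (m : ℝ)) (hkt : t * 3 ^ k ≤ 1) : needleH (u, t) ≤ - (2 * t) := by
  have hmem : (u, t) ∈ needlesNeg := by
    obtain ⟨j, hj⟩ := hm
    refine Or.inr ⟨k, j, ?_, hkt⟩
    rw [hu, hj]; push_cast; ring
  have h1 : infDist (u, t) needlesNeg = 0 := infDist_zero_of_mem hmem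
  have h2 : t / 2 ≤ infDist (u, t) needlesPos := by
    rw [le_infDist needlesPos_nonempty]
    rintro ⟨v, s⟩ hvs
    rw [Prod.dist_eq]
    simp only [Real.dist_eq]
    rcases hvs with hs | ⟨i, j, hv, his⟩
    · simp only at hs
      refine le_max_of_le_right ?_
      rw [abs_of_nonneg (by linarith)]
      linarith
    · simp only at hv his
      have hv' : v * 3 ^ i = ((2 * j : ℤ) : ℝ) := by rw [hv]; push_cast; ring
      exact needle_sep ht hu hkt hv' his (hm.add_even ⟨j, by ring⟩)
  unfold needleH
  rw [h1]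
  linarith

end Pool.Agent.SobClos
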