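import Mathlib
import Pool.Agent.SobClos.Needles

/-!
Paths that stay in the sheared wedge have to oscillate.
-/

open Set Metric MeasureTheory

namespace Pool.Agent.SobClos

/-- One step: a path in the tube has to move at least `α x / 4` in the time `8 α x`. -/
lemma one_step {u α β : ℝ → ℝ} {x D : ℝ}
    (hu : ContinuousOn u (Icc x (x + 8 * α x))) (ha : 0 < α x) (ha1 : α x ≤ 1 / 2)
    (htube : ∀ s ∈ Icc x (x + 8 * α x), 0 < α s ∧ |β s - needleH (u s, α s)| < α s)
    (hD1 : ∀ s ∈ Icc x (x + 8 * α x), |α s - α x| ≤ D)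
    (hD2 : ∀ s ∈ Icc x (x + 8 * α x), ∀ s' ∈ Icc x (x + 8 * α x), |β s - β s'| ≤ D)
    (hD3 : ∀ s ∈ Icc x (x + 8 * α x), |u s - u x - (s - x)| ≤ D) :
    α x / 4 ≤ D := by
  by_contra hlt
  push Not at hlt
  set a := α x with ha_def
  have hxx' : x ≤ x + 8 * a := by linarith
  have hend : x + 8 * a ∈ Icc x (x + 8 * a) := ⟨hxx', le_rfl⟩
  have hpos : 0 < 5 * a / 4 := by linarith
  have hge1 : 1 ≤ (5 * a / 4)⁻¹ := by
    rw [one_le_inv₀ hpos]; linarith
  obtain ⟨k, hk1, hk2⟩ := exists_nat_pow_near (y := (3 : ℝ)) hge1 (by norm_num)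
  have hp : (0 : ℝ) < 3 ^ k := by positivity
  have hk1' : 5 * a / 4 * 3 ^ k ≤ 1 := by
    rw [le_inv_comm₀ hp hpos] at hk1
    calc 5 * a / 4 * 3 ^ k ≤ (3 ^ k)⁻¹ * 3 ^ k := by gcongr
      _ = 1 := by field_simp
  have hk2' : 1 < 5 * a / 4 * 3 ^ (k + 1) := by
    have : (5 * a / 4) * (5 * a / 4)⁻¹ < 5 * a / 4 * 3 ^ (k + 1) := by gcongr
    rwa [mul_inv_cancel₀ hpos.ne'] at this
  -- the two consecutive needles
  set m : ℤ := ⌈u x * 3 ^ k⌉ with hm
  have hm1 : u x * 3 ^ k ≤ (m : ℝ) := Int.le_ceil _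
  have hm2 : (m : ℝ) < u x * 3 ^ k + 1 := Int.ceil_lt_add_one _
  have huend : u x + 8 * a - D ≤ u (x + 8 * a) := by
    have := hD3 _ hend
    rw [abs_le] at this
    linarith [this.1]
  have hinv : (3 ^ k : ℝ)⁻¹ < 15 * a / 4 := by
    rw [inv_lt_iff_one_lt_mul₀ hp]
    calc (1 : ℝ) < 5 * a / 4 * 3 ^ (k + 1) := hk2'
      _ = 15 * a / 4 * 3 ^ k := by rw [pow_succ]; ring
  have key : ∀ z : ℤ, (m : ℝ) ≤ z → (z : ℝ) ≤ m + 1 →
      ∃ s ∈ Icc x (x + 8 * a), u s * 3 ^ k = z := by
    intro z hz1 hz2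
    have hzI : (z : ℝ) * (3 ^ k)⁻¹ ∈ Icc (u x) (u (x + 8 * a)) := by
      constructor
      · calc u x = u x * 3 ^ k * (3 ^ k)⁻¹ := by field_simp
          _ ≤ (z : ℝ) * (3 ^ k)⁻¹ := by
            gcongr
            exact hm1.trans hz1
      · calc (z : ℝ) * (3 ^ k)⁻¹ ≤ (u x * 3 ^ k + 2) * (3 ^ k)⁻¹ := by
              gcongr; linarith
          _ = u x + 2 * (3 ^ k)⁻¹ := by field_simp
          _ ≤ u (x + 8 * a) := by linarith
    obtain ⟨s, hs, hus⟩ := intermediate_value_Icc hxx' hu hzI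
    refine ⟨s, hs, ?_⟩
    rw [hus]; field_simp
  obtain ⟨s₁, hs₁, hus₁⟩ := key m le_rfl (by linarith)
  obtain ⟨s₂, hs₂, hus₂⟩ := key (m + 1) (by push_cast; linarith) (by push_cast; linarith)
  have hαle : ∀ s ∈ Icc x (x + 8 * a), α s * 3 ^ k ≤ 1 := by
    intro s hs
    have h1 := hD1 s hs
    rw [abs_le] at h1
    calc α s * 3 ^ k ≤ 5 * a / 4 * 3 ^ k := by gcongr; linarith [h1.2]
      _ ≤ 1 := hk1'
  have hαge : ∀ s ∈ Icc x (x + 8 * a), 3 * a / 4 ≤ α s := by
    intro s hs
    have h1 := hD1 s hs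
    rw [abs_le] at h1
    linarith [h1.1]
  have hEven : ∀ s ∈ Icc x (x + 8 * a), ∀ z : ℤ, Even z → u s * 3 ^ k = z → 3 * a / 4 ≤ β s := by
    intro s hs z hz hzs
    obtain ⟨h1, h2⟩ := htube s hs
    have h3 := needleH_pos h1 hz hzs (hαle s hs)
    rw [abs_lt] at h2
    have h4 := hαge s hs
    linarith [h2.1]
  have hOdd : ∀ s ∈ Icc x (x + 8 * a), ∀ z : ℤ, Odd z → u s * 3 ^ k = z →
      β s ≤ - (3 * a / 4) := by
    intro s hs z hz hzs
    obtain ⟨h1, h2⟩ := htube s hs
    have h3 := needleH_neg h1 hz hzs (hαle s hs)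
    rw [abs_lt] at h2
    have h4 := hαge s hs
    linarith [h2.2]
  have hfin := hD2 s₁ hs₁ s₂ hs₂
  rw [abs_le] at hfin
  rcases Int.even_or_odd m with hme | hmo
  · have h1 := hEven s₁ hs₁ m hme hus₁
    have h2 := hOdd s₂ hs₂ (m + 1) hme.add_one hus₂
    linarith [hfin.2]
  · have h1 := hOdd s₁ hs₁ m hmo hus₁
    have h2 := hEven s₂ hs₂ (m + 1) hmo.add_one hus₂
    linarith [hfin.1]

/-- Increments are controlled by the integral of the absolute value of the derivative. -/
lemma abs_sub_le_integral {f f' : ℝ → ℝ} (hf : ∀ s, HasDerivAt f (f' s) s)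
    (hf' : Continuous f') {x y s s' : ℝ} (hs : s ∈ Icc x y) (hs' : s' ∈ Icc x y) :
    |f s - f s'| ≤ ∫ r in x..y, |f' r| := by
  have hxy : x ≤ y := hs.1.trans hs.2
  have hint : ∀ a b : ℝ, IntervalIntegrable f' volume a b := fun a b => hf'.intervalIntegrable a b
  have h1 : f s - f s' = ∫ r in s'..s, f' r :=
    (intervalIntegral.integral_eq_sub_of_hasDerivAt (fun r _ => hf r) (hint _ _)).symm
  rw [h1]
  calc |∫ r in s'..s, f' r| = ‖∫ r in s'..s, f' r‖ := (Real.norm_eq_abs _).symm
    _ ≤ |∫ r in s'..s, ‖f' r‖| := intervalIntegral.norm_integral_le_abs_integral_norm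
    _ ≤ ∫ r in x..y, |f' r| := by
      have hnn : ∀ r, 0 ≤ ‖f' r‖ := fun r => norm_nonneg _
      have hii : ∀ a b : ℝ, IntervalIntegrable (fun r => ‖f' r‖) volume a b :=
        fun a b => hf'.norm.intervalIntegrable a b
      rcases le_total s' s with hle | hle
      · rw [abs_of_nonneg (intervalIntegral.integral_nonneg hle (fun r _ => hnn r))]
        simp_rw [← Real.norm_eq_abs]
        exact intervalIntegral.integral_mono_interval hs'.1 hle hs.2
          (Filter.Eventually.of_forall hnn) (hii _ _)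
      · rw [intervalIntegral.integral_symm, abs_neg,
          abs_of_nonneg (intervalIntegral.integral_nonneg hle (fun r _ => hnn r))]
        simp_rw [← Real.norm_eq_abs]
        exact intervalIntegral.integral_mono_interval hs.1 hle hs'.2
          (Filter.Eventually.of_forall hnn) (hii _ _)

/-- Data of a `C¹` path with three coordinate functions. -/
structure PathData (u α β u' α' β' : ℝ → ℝ) : Prop where
  hu : ∀ s, HasDerivAt u (u' s) s
  hα : ∀ s, HasDerivAt α (α' s) s
  hβ : ∀ s, HasDerivAt β (β' s) s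
  cu : Continuous u'
  cα : Continuous α'
  cβ : Continuous β'

/-- The speed of deviation from a straight path. -/
def dev (u' α' β' : ℝ → ℝ) (s : ℝ) : ℝ := |u' s - 1| + |α' s| + |β' s|

lemma dev_nonneg (u' α' β' : ℝ → ℝ) (s : ℝ) : 0 ≤ dev u' α' β' s := by
  unfold dev; positivity

lemma PathData.dev_continuous {u α β u' α' β' : ℝ → ℝ} (h : PathData u α β u' α' β') :
    Continuous (dev u' α' β') := by
  have := h.cu; have := h.cα; have := h.cβ
  unfold dev; fun_prop

lemma PathData.step {u α β u' α' β' : ℝ → ℝ} (h : PathData u α β u' α' β') {x : ℝ}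
    (ha : 0 < α x) (ha1 : α x ≤ 1 / 2)
    (htube : ∀ s ∈ Icc x (x + 8 * α x), 0 < α s ∧ |β s - needleH (u s, α s)| < α s) :
    α x / 4 ≤ ∫ r in x..(x + 8 * α x), dev u' α' β' r := by
  have hle : x ≤ x + 8 * α x := by linarith
  have hxI : x ∈ Icc x (x + 8 * α x) := ⟨le_rfl, hle⟩
  have hmono : ∀ {g : ℝ → ℝ}, Continuous g → (∀ r, |g r| ≤ dev u' α' β' r) →
      ∫ r in x..(x + 8 * α x), |g r| ≤ ∫ r in x..(x + 8 * α x), dev u' α' β' r := by
    intro g hg hgd
    exact intervalIntegral.integral_mono_on hle (hg.abs.intervalIntegrable _ _)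
      (h.dev_continuous.intervalIntegrable _ _) (fun r _ => hgd r)
  have hcu : Continuous u := continuous_iff_continuousAt.2 fun s => (h.hu s).continuousAt
  refine one_step hcu.continuousOn ha ha1 htube ?_ ?_ ?_
  · intro s hs
    refine (abs_sub_le_integral h.hα h.cα hs hxI).trans (hmono h.cα fun r => ?_)
    unfold dev
    have := abs_nonneg (u' r - 1); have := abs_nonneg (β' r); linarith
  · intro s hs s' hs'
    refine (abs_sub_le_integral h.hβ h.cβ hs hs').trans (hmono h.cβ fun r => ?_)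
    unfold dev
    have := abs_nonneg (u' r - 1); have := abs_nonneg (α' r); linarith
  · intro s hs
    have hd : ∀ r, HasDerivAt (fun r => u r - r) (u' r - 1) r := fun r =>
      (h.hu r).sub (hasDerivAt_id r)
    have := abs_sub_le_integral hd (h.cu.sub continuous_const) hs hxI
    have e : u s - s - (u x - x) = u s - u x - (s - x) := by ring
    rw [e] at this
    refine this.trans (hmono (h.cu.sub continuous_const) fun r => ?_)
    unfold dev
    have := abs_nonneg (α' r); have := abs_nonneg (β' r); linarith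

/-- Iterating the step. -/
lemma PathData.iterate {u α β u' α' β' : ℝ → ℝ} (h : PathData u α β u' α' β') {y amin amax : ℝ}
    (hmax : amax ≤ 1 / 2) (N : ℕ) :
    ∀ x : ℝ, (∀ s ∈ Icc x y, 0 < α s ∧ |β s - needleH (u s, α s)| < α s) →
      (∀ s ∈ Icc x y, amin ≤ α s) → (∀ s ∈ Icc x y, α s ≤ amax) → x ≤ y →
      y - x ≤ N * (8 * amin) →
      (y - x - 8 * amax) / 32 ≤ ∫ r in x..y, dev u' α' β' r := by
  induction N with
  | zero =>
    intro x htube h1 h2 hxy hN
    have hx : x ∈ Icc x y := ⟨le_rfl, hxy⟩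
    have h3 := (htube x hx).1
    have h4 := h2 x hx
    have h5 : 0 ≤ ∫ r in x..y, dev u' α' β' r :=
      intervalIntegral.integral_nonneg hxy (fun r _ => dev_nonneg _ _ _ r)
    simp only [CharP.cast_eq_zero, zero_mul] at hN
    linarith
  | succ N ih =>
    intro x htube h1 h2 hxy hN
    have hx : x ∈ Icc x y := ⟨le_rfl, hxy⟩
    have h3 := (htube x hx).1
    have h4 := h2 x hx
    by_cases hcase : y - x ≤ 8 * amax
    · have h5 : 0 ≤ ∫ r in x..y, dev u' α' β' r :=
        intervalIntegral.integral_nonneg hxy (fun r _ => dev_nonneg _ _ _ r)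
      linarith
    · push Not at hcase
      set x' := x + 8 * α x with hx'
      have hx'y : x' ≤ y := by linarith
      have hxx' : x ≤ x' := by linarith
      have hstep : α x / 4 ≤ ∫ r in x..x', dev u' α' β' r :=
        h.step h3 (h4.trans hmax) (fun s hs => htube s ⟨hs.1, hs.2.trans hx'y⟩)
      have hrest := ih x' (fun s hs => htube s ⟨hxx'.trans hs.1, hs.2⟩)
        (fun s hs => h1 s ⟨hxx'.trans hs.1, hs.2⟩)
        (fun s hs => h2 s ⟨hxx'.trans hs.1, hs.2⟩) hx'y (by
          have := h1 x hx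
          push_cast at hN
          nlinarith)
      have hadd : ∫ r in x..y, dev u' α' β' r =
          (∫ r in x..x', dev u' α' β' r) + ∫ r in x'..y, dev u' α' β' r :=
        (intervalIntegral.integral_add_adjacent_intervals
          (h.dev_continuous.intervalIntegrable _ _)
          (h.dev_continuous.intervalIntegrable _ _)).symm
      rw [hadd]
      linarith

/-- The line inequality. -/
theorem PathData.line {u α β u' α' β' : ℝ → ℝ} (h : PathData u α β u' α' β') {x L : ℝ}
    (hL : 0 < L) (hL1 : L ≤ 1)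
    (htube : ∀ s ∈ Icc x (x + L), 0 < α s ∧ |β s - needleH (u s, α s)| < α s) :
    L / 32 ≤ (∫ r in x..(x + L), 2 * dev u' α' β' r) +
      (4 * L)⁻¹ * ∫ r in x..(x + L), α r := by
  have hle : x ≤ x + L := by linarith
  have hcα : Continuous α := continuous_iff_continuousAt.2 fun s => (h.hα s).continuousAt
  have hne : (Icc x (x + L)).Nonempty := ⟨x, le_rfl, hle⟩
  obtain ⟨s₀, hs₀, hmin⟩ := isCompact_Icc.exists_isMinOn hne hcα.continuousOn
  obtain ⟨s₁, hs₁, hmax⟩ := isCompact_Icc.exists_isMaxOn hne hcα.continuousOn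
  set I := ∫ r in x..(x + L), dev u' α' β' r with hI
  set A := ∫ r in x..(x + L), α r with hA
  have hI0 : 0 ≤ I := intervalIntegral.integral_nonneg hle (fun r _ => dev_nonneg _ _ _ r)
  -- the maximum of `α` is bounded by the average plus the variation
  have hmaxle : α s₁ ≤ L⁻¹ * A + I := by
    have hpt : ∀ s ∈ Icc x (x + L), α s₁ - I ≤ α s := by
      intro s hs
      have h1 := abs_sub_le_integral h.hα h.cα hs₁ hs
      have h2 : ∫ r in x..(x + L), |α' r| ≤ I := by
        refine intervalIntegral.integral_mono_on hle (h.cα.abs.intervalIntegrable _ _)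
          (h.dev_continuous.intervalIntegrable _ _) (fun r _ => ?_)
        unfold dev
        have := abs_nonneg (u' r - 1); have := abs_nonneg (β' r); linarith
      have h3 := (le_abs_self _).trans (h1.trans h2)
      linarith
    have : ∫ r in x..(x + L), (α s₁ - I) ≤ A :=
      intervalIntegral.integral_mono_on hle (by simp) (hcα.intervalIntegrable _ _) hpt
    rw [intervalIntegral.integral_const] at this
    simp only [add_sub_cancel_left, smul_eq_mul] at this
    have h4 : α s₁ - I ≤ L⁻¹ * A := by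
      rw [inv_mul_eq_div, le_div_iff₀ hL]
      linarith
    linarith
  have hA0 : 0 ≤ A := intervalIntegral.integral_nonneg hle (fun r hr => (htube r hr).1.le)
  rw [intervalIntegral.integral_const_mul]
  have e1 : (4 * L)⁻¹ * A = L⁻¹ * A / 4 := by
    rw [mul_inv]; ring
  rw [e1]
  have hLA : 0 ≤ L⁻¹ * A := by positivity
  by_cases hbig : α s₁ ≤ 1 / 2
  · have hpos : 0 < α s₀ := (htube s₀ hs₀).1
    obtain ⟨N, hN⟩ := exists_nat_ge (L / (8 * α s₀))
    have := h.iterate (y := x + L) (amin := α s₀) (amax := α s₁) hbig N x htube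
      (fun s hs => hmin hs) (fun s hs => hmax hs) hle (by
        rw [div_le_iff₀ (by positivity)] at hN
        linarith)
    linarith
  · push Not at hbig
    linarith

end Pool.Agent.SobClos
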