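import Mathlib
import Pool.Agent.SobClos.Coord
import Pool.Agent.SobClos.Path

/-!
The key inequality for Sobolev maps into the tube, by mollification.
-/

open MeasureTheory Filter Topology Set Metric
open scoped ENNReal NNReal ContDiff Convolution

namespace Pool.Agent.SobClos

variable {n : ℕ}

/-- The derivative of a mollification is the mollification of the weak derivative. -/
lemma mollify_deriv {Ω : Set (E n)} {i : Fin n} {g U : E n → E n}
    {K : Set (E n)} (hKm : MeasurableSet K) (hKΩ : K ⊆ Ω)
    (hweak : IsWeakPartial Ω i g U) (hg : IntegrableOn g K)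
    (φ : ContDiffBump (0 : E n)) {x : E n} (hx : closedBall x φ.rOut ⊆ K) :
    fderiv ℝ (φ.normed volume ⋆[ContinuousLinearMap.lsmul ℝ ℝ, volume] (K.indicator g)) x
      (stdVec i) =
    (φ.normed volume ⋆[ContinuousLinearMap.lsmul ℝ ℝ, volume] (K.indicator U)) x := by
  set ρ := φ.normed (volume : Measure (E n)) with hρ
  have hρs : ContDiff ℝ ∞ ρ := φ.contDiff_normed
  have hρc : HasCompactSupport ρ := φ.hasCompactSupport_normed
  have hgi : Integrable (K.indicator g) := hg.integrable_indicator hKm
  have hloc : LocallyIntegrable (K.indicator g) := hgi.locallyIntegrable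
  have h := hρc.hasFDerivAt_convolution_left (ContinuousLinearMap.lsmul ℝ ℝ)
    (hρs.of_le (by simp)) hloc x
  rw [h.fderiv]
  -- the test function
  set ψ : E n → ℝ := fun t => ρ (x - t) with hψ
  have hψs : ContDiff ℝ ∞ ψ := hρs.comp (contDiff_const.sub contDiff_id)
  have hψ0 : ∀ t, t ∉ closedBall x φ.rOut → ψ t = 0 := by
    intro t ht
    have : x - t ∉ Function.support ρ := by
      rw [hρ, φ.support_normed_eq, mem_ball_zero_iff]
      rw [mem_closedBall, dist_comm, dist_eq_norm] at ht
      linarith
    simpa [Function.mem_support] using this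
  have hψt : tsupport ψ ⊆ closedBall x φ.rOut := by
    refine closure_minimal ?_ isClosed_closedBall
    intro t ht
    by_contra hcon
    exact ht (hψ0 t hcon)
  have hψc : HasCompactSupport ψ :=
    HasCompactSupport.of_support_subset_isCompact (isCompact_closedBall x φ.rOut)
      (subset_closure.trans hψt)
  have hψd : ∀ t, fderiv ℝ ψ t (stdVec i) = - fderiv ℝ ρ (x - t) (stdVec i) := by
    intro t
    have h1 : HasFDerivAt ρ (fderiv ℝ ρ (x - t)) (x - t) :=
      (hρs.differentiable (by simp)).differentiableAt.hasFDerivAt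
    have h2 : HasFDerivAt (fun t : E n => x - t) (-(ContinuousLinearMap.id ℝ (E n))) t := by
      simpa using (hasFDerivAt_id t).const_sub x
    have h3 : HasFDerivAt ψ ((fderiv ℝ ρ (x - t)).comp (-(ContinuousLinearMap.id ℝ (E n)))) t :=
      h1.comp t h2
    rw [h3.fderiv]
    simp
  have hψd0 : ∀ t, t ∉ closedBall x φ.rOut → fderiv ℝ ψ t (stdVec i) = 0 := by
    intro t ht
    have : t ∉ tsupport (fderiv ℝ ψ) := fun hcon => ht (hψt (tsupport_fderiv_subset ℝ hcon))
    have h0 : fderiv ℝ ψ t = 0 := image_eq_zero_of_notMem_tsupport this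
    simp [h0]
  have hex : ConvolutionExistsAt (fderiv ℝ ρ) (K.indicator g) x
      ((ContinuousLinearMap.lsmul ℝ ℝ : ℝ →L[ℝ] E n →L[ℝ] E n).precompL (E n)) volume :=
    (hρc.fderiv ℝ).convolutionExists_left _ (hρs.continuous_fderiv (by simp)) hloc x
  rw [convolution_eq_swap]
  rw [ContinuousLinearMap.integral_apply hex.integrable_swap]
  have e1 : ∀ t, (((ContinuousLinearMap.lsmul ℝ ℝ : ℝ →L[ℝ] E n →L[ℝ] E n).precompL (E n))
      (fderiv ℝ ρ (x - t)) (K.indicator g t)) (stdVec i) = - (fderiv ℝ ψ t (stdVec i) • g t) := by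
    intro t
    rw [ContinuousLinearMap.precompL_apply, hψd t, neg_smul, neg_neg]
    by_cases ht : t ∈ closedBall x φ.rOut
    · rw [indicator_of_mem (hx ht)]; rfl
    · have h0 := hψd0 t ht
      rw [hψd t, neg_eq_zero] at h0
      rw [h0]; simp
  simp_rw [e1]
  rw [integral_neg]
  have e2 : ∫ t, fderiv ℝ ψ t (stdVec i) • g t = ∫ t in Ω, fderiv ℝ ψ t (stdVec i) • g t := by
    symm
    refine setIntegral_eq_integral_of_forall_compl_eq_zero fun t ht => ?_
    rw [hψd0 t (fun hcon => ht (hKΩ (hx hcon))), zero_smul]
  rw [e2, hweak ψ hψs hψc (hψt.trans (hx.trans hKΩ)), neg_neg]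
  have e3 : ∫ t in Ω, ψ t • U t = ∫ t, ψ t • U t := by
    refine setIntegral_eq_integral_of_forall_compl_eq_zero fun t ht => ?_
    rw [hψ0 t (fun hcon => ht (hKΩ (hx hcon))), zero_smul]
  rw [e3, convolution_lsmul_swap]
  refine integral_congr_ae (Eventually.of_forall fun t => ?_)
  by_cases ht : t ∈ closedBall x φ.rOut
  · simp only [indicator_of_mem (hx ht)]; rfl
  · simp only
    rw [hψ0 t ht, zero_smul]
    have : ρ (x - t) = 0 := hψ0 t ht
    rw [this, zero_smul]

/-- The open tube around the edge in which the map `g` takes its values. -/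
def tube (m : ℕ) : Set (E (m + 3)) :=
  {y | 0 < y 1 ∧ |y 2 - needleH (y 0, y 1)| < y 1}

lemma isOpen_tube (m : ℕ) : IsOpen (tube m) := by
  have h0 : Continuous fun y : E (m + 3) => y 0 := by fun_prop
  have h1 : Continuous fun y : E (m + 3) => y 1 := by fun_prop
  have h2 : Continuous fun y : E (m + 3) => y 2 := by fun_prop
  have h3 : Continuous fun y : E (m + 3) => needleH (y 0, y 1) :=
    needleH_continuous.comp (h0.prodMk h1)
  exact (isOpen_lt continuous_const h1).inter (isOpen_lt (h2.sub h3).abs h1)

/-- The pointwise deviation of a matrix column from the first basis vector. -/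
def devAt {m : ℕ} (v : E (m + 3)) : ℝ := |v 0 - 1| + |v 1| + |v 2|

lemma devAt_nonneg {m : ℕ} (v : E (m + 3)) : 0 ≤ devAt v := by unfold devAt; positivity

lemma continuous_devAt {m : ℕ} : Continuous (devAt (m := m)) := by
  unfold devAt; fun_prop

lemma devAt_le {m : ℕ} (v : E (m + 3)) : devAt v ≤ 3 * ‖v‖ + 1 := by
  unfold devAt
  have h0 : |v 0| ≤ ‖v‖ := by simpa using PiLp.norm_apply_le v 0
  have h1 : |v 1| ≤ ‖v‖ := by simpa using PiLp.norm_apply_le v 1
  have h2 : |v 2| ≤ ‖v‖ := by simpa using PiLp.norm_apply_le v 2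
  have h3 : |v 0 - 1| ≤ |v 0| + 1 := by
    calc |v 0 - 1| ≤ |v 0| + |1| := abs_sub _ _
      _ = |v 0| + 1 := by simp
  linarith

lemma integrableOn_devAt {m : ℕ} {U : E (m + 3) → E (m + 3)} {K : Set (E (m + 3))}
    (hK : volume K ≠ ⊤) (hU : IntegrableOn U K) : IntegrableOn (fun x => devAt (U x)) K := by
  have h1 : IntegrableOn (fun x => 3 * ‖U x‖ + 1) K :=
    (hU.norm.const_mul 3).add (integrableOn_const hK)
  refine Integrable.mono' h1 (continuous_devAt.comp_aestronglyMeasurable hU.1) ?_
  refine Eventually.of_forall fun x => ?_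
  rw [Real.norm_eq_abs, abs_of_nonneg (devAt_nonneg _)]
  exact devAt_le _

/-- Averaging: `devAt` and a coordinate functional are controlled by the mollified quantities. -/
lemma conv_bound {m : ℕ} {g U : E (m + 3) → E (m + 3)} {K : Set (E (m + 3))}
    (hKm : MeasurableSet K) (hKfin : volume K ≠ ⊤) (hg : IntegrableOn g K)
    (hU : IntegrableOn U K) (φ : ContDiffBump (0 : E (m + 3))) {x : E (m + 3)}
    (hx : closedBall x φ.rOut ⊆ K) (a : ℝ) :
    2 * devAt ((φ.normed volume ⋆[ContinuousLinearMap.lsmul ℝ ℝ, volume] (K.indicator U)) x) +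
      a * ((φ.normed volume ⋆[ContinuousLinearMap.lsmul ℝ ℝ, volume] (K.indicator g)) x) 1 ≤
    (φ.normed volume ⋆[ContinuousLinearMap.lsmul ℝ ℝ, volume]
      (K.indicator fun y => 2 * devAt (U y) + a * g y 1)) x := by
  set ρ := φ.normed (volume : Measure (E (m + 3))) with hρ
  have hρs : Continuous ρ := φ.contDiff_normed (n := 0) |>.continuous
  have hρc : HasCompactSupport ρ := φ.hasCompactSupport_normed
  set ψ : E (m + 3) → ℝ := fun t => ρ (x - t) with hψ
  have hψ0 : ∀ t, t ∉ closedBall x φ.rOut → ψ t = 0 := by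
    intro t ht
    have : x - t ∉ Function.support ρ := by
      rw [hρ, φ.support_normed_eq, mem_ball_zero_iff]
      rw [mem_closedBall, dist_comm, dist_eq_norm] at ht
      linarith
    simpa [Function.mem_support] using this
  have hψnn : ∀ t, 0 ≤ ψ t := fun t => φ.nonneg_normed _
  have hψc : HasCompactSupport ψ :=
    HasCompactSupport.intro (isCompact_closedBall x φ.rOut) (fun t ht => hψ0 t ht)
  have hψs : Continuous ψ := hρs.comp (continuous_const.sub continuous_id)
  have hψ1 : ∫ t, ψ t = 1 := by
    have := φ.integral_normed (μ := (volume : Measure (E (m + 3))))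
    rw [← this]
    exact integral_sub_left_eq_self (fun t => φ.normed volume t) volume x
  have hint : ∀ {F : Type} [NormedAddCommGroup F] [NormedSpace ℝ F] {f : E (m + 3) → F},
      IntegrableOn f K → Integrable (fun t => ψ t • K.indicator f t) := by
    intro F _ _ f hf
    exact (hf.integrable_indicator hKm).locallyIntegrable.integrable_smul_left_of_hasCompactSupport
      hψs hψc
  have hUi := hint hU
  have hgi := hint hg
  have hDi := hint (integrableOn_devAt hKfin hU)
  have hg1 : IntegrableOn (fun y => g y 1) K := by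
    refine Integrable.mono' hg.norm ?_ (Eventually.of_forall fun y => PiLp.norm_apply_le (g y) 1)
    exact (EuclideanSpace.proj (𝕜 := ℝ) (1 : Fin (m + 3))).continuous.comp_aestronglyMeasurable hg.1
  have hg1i := hint hg1
  have hcoord : ∀ (i : Fin (m + 3)) {f : E (m + 3) → E (m + 3)},
      Integrable (fun t => ψ t • K.indicator f t) →
      (∫ t, ψ t • K.indicator f t) i = ∫ t, ψ t * K.indicator f t i := by
    intro i f hf
    have := (EuclideanSpace.proj (𝕜 := ℝ) i).integral_comp_comm hf
    simpa using this.symm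
  have hψi : Integrable ψ := hψs.integrable_of_hasCompactSupport hψc
  have hUci : ∀ i : Fin (m + 3), Integrable (fun t => ψ t * K.indicator U t i) := by
    intro i
    have := (EuclideanSpace.proj (𝕜 := ℝ) i).integrable_comp hUi
    simpa using this
  simp only [convolution_lsmul_swap]
  change 2 * devAt (∫ t, ψ t • K.indicator U t) + a * (∫ t, ψ t • K.indicator g t) 1 ≤
    ∫ t, ψ t • K.indicator (fun y => 2 * devAt (U y) + a * g y 1) t
  have hrhs : ∫ t, ψ t • K.indicator (fun y => 2 * devAt (U y) + a * g y 1) t =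
      2 * (∫ t, ψ t • K.indicator (fun y => devAt (U y)) t) +
        a * ∫ t, ψ t • K.indicator (fun y => g y 1) t := by
    rw [← integral_const_mul, ← integral_const_mul, ← integral_add (hDi.const_mul 2)
      (hg1i.const_mul a)]
    refine integral_congr_ae (Eventually.of_forall fun t => ?_)
    by_cases ht : t ∈ K
    · simp only [indicator_of_mem ht, smul_eq_mul]; ring
    · simp only [indicator_of_notMem ht, smul_eq_mul]; ring
  have hg_eq : (∫ t, ψ t • K.indicator g t) 1 = ∫ t, ψ t • K.indicator (fun y => g y 1) t := by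
    rw [hcoord 1 hgi]
    refine integral_congr_ae (Eventually.of_forall fun t => ?_)
    by_cases ht : t ∈ K
    · simp only [indicator_of_mem ht, smul_eq_mul]
    · simp only [indicator_of_notMem ht, smul_eq_mul]
      simp
  rw [hrhs, hg_eq]
  have hdev : devAt (∫ t, ψ t • K.indicator U t) ≤
      ∫ t, ψ t • K.indicator (fun y => devAt (U y)) t := by
    unfold devAt
    rw [hcoord 0 hUi, hcoord 1 hUi, hcoord 2 hUi]
    have e0 : (∫ t, ψ t * K.indicator U t 0) - 1 = ∫ t, (ψ t * K.indicator U t 0 - ψ t) := by
      rw [integral_sub (hUci 0) hψi, hψ1]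
    rw [e0]
    have i0 : Integrable (fun t => |ψ t * K.indicator U t 0 - ψ t|) := ((hUci 0).sub hψi).abs
    have i1 : Integrable (fun t => |ψ t * K.indicator U t 1|) := (hUci 1).abs
    have i2 : Integrable (fun t => |ψ t * K.indicator U t 2|) := (hUci 2).abs
    calc |∫ t, (ψ t * K.indicator U t 0 - ψ t)| + |∫ t, ψ t * K.indicator U t 1| +
          |∫ t, ψ t * K.indicator U t 2|
        ≤ (∫ t, |ψ t * K.indicator U t 0 - ψ t|) + (∫ t, |ψ t * K.indicator U t 1|) +
          ∫ t, |ψ t * K.indicator U t 2| := by
          gcongr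
          · exact abs_integral_le_integral_abs
          · exact abs_integral_le_integral_abs
          · exact abs_integral_le_integral_abs
      _ = ∫ t, (|ψ t * K.indicator U t 0 - ψ t| + |ψ t * K.indicator U t 1| +
            |ψ t * K.indicator U t 2|) := by
          rw [← integral_add i0 i1]
          exact (integral_add (i0.add i1) i2).symm
      _ = ∫ t, ψ t • K.indicator (fun y => |U y 0 - 1| + |U y 1| + |U y 2|) t := by
          refine integral_congr_ae (Eventually.of_forall fun t => ?_)
          simp only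
          by_cases ht : t ∈ closedBall x φ.rOut
          · have ht' := hx ht
            simp only [indicator_of_mem ht', smul_eq_mul]
            have : ψ t * U t 0 - ψ t = ψ t * (U t 0 - 1) := by ring
            rw [this, abs_mul, abs_mul, abs_mul, abs_of_nonneg (hψnn t)]
            ring
          · rw [hψ0 t ht]; simp
  linarith

/-- The key inequality. -/
theorem key_inequality {m : ℕ} {Ω : Set (E (m + 3))} {g U : E (m + 3) → E (m + 3)}
    (hg : ContinuousOn g Ω) (hweak : IsWeakPartial Ω 0 g U)
    {c : E (m + 3)} {r L R : ℝ} (hL : 0 < L) (hL1 : L ≤ 1) (hR : r + L < R)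
    (hK : closedBall c R ⊆ Ω) (hU : IntegrableOn U (closedBall c R))
    (htube : ∀ x ∈ closedBall c R, g x ∈ tube m) :
    volume.real (closedBall c r) / 32 ≤
      ∫ x in closedBall c R, (2 * devAt (U x) + (4 * L)⁻¹ * g x 1) := by
  set K := closedBall c R with hKdef
  have hKc : IsCompact K := isCompact_closedBall c R
  have hKm : MeasurableSet K := hKc.measurableSet
  have hKfin : volume K ≠ ⊤ := hKc.measure_ne_top
  have hgK : ContinuousOn g K := hg.mono hK
  have hgi : IntegrableOn g K := hgK.integrableOn_compact hKc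
  -- choice of the radius
  set K₁ := closedBall c (r + L) with hK₁
  have hK₁K : K₁ ⊆ K := closedBall_subset_closedBall hR.le
  have hK₁c : IsCompact K₁ := isCompact_closedBall _ _
  obtain ⟨η, hη, hηtube⟩ : ∃ η > 0, thickening η (g '' K₁) ⊆ tube m := by
    refine (hK₁c.image_of_continuousOn (hgK.mono hK₁K)).exists_thickening_subset_open
      (isOpen_tube m) ?_
    rintro _ ⟨x, hx, rfl⟩
    exact htube x (hK₁K hx)
  have hunif : UniformContinuousOn g K := hKc.uniformContinuousOn_of_continuous hgK
  obtain ⟨δ, hδ, hδg⟩ := Metric.uniformContinuousOn_iff.1 hunif (η / 2) (by positivity)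
  set ε := min (δ / 2) ((R - (r + L)) / 2) with hε
  have hεpos : 0 < ε := lt_min (by positivity) (by linarith)
  have hεδ : ε < δ := (min_le_left _ _).trans_lt (by linarith)
  have hεR : r + L + ε ≤ R := by
    have : ε ≤ (R - (r + L)) / 2 := min_le_right _ _
    linarith
  let φ : ContDiffBump (0 : E (m + 3)) := ⟨ε / 2, ε, by positivity, by linarith⟩
  have hφ : φ.rOut = ε := rfl
  have hball : ∀ x ∈ K₁, closedBall x φ.rOut ⊆ K := by
    intro x hx
    rw [hφ]
    refine closedBall_subset_closedBall' ?_
    have := mem_closedBall.1 hx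
    linarith
  set ρ := φ.normed (volume : Measure (E (m + 3))) with hρ
  set G := (ρ ⋆[ContinuousLinearMap.lsmul ℝ ℝ, volume] (K.indicator g)) with hG
  set P : E (m + 3) → ℝ := K.indicator fun y => 2 * devAt (U y) + (4 * L)⁻¹ * g y 1 with hP
  set Q := (ρ ⋆[ContinuousLinearMap.lsmul ℝ ℝ, volume] P) with hQ
  have hρs : ContDiff ℝ ∞ ρ := φ.contDiff_normed
  have hρc : HasCompactSupport ρ := φ.hasCompactSupport_normed
  have hgint : Integrable (K.indicator g) := hgi.integrable_indicator hKm
  have hg1 : IntegrableOn (fun y => g y 1) K := by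
    refine Integrable.mono' hgi.norm ?_ (Eventually.of_forall fun y => PiLp.norm_apply_le (g y) 1)
    exact (EuclideanSpace.proj (𝕜 := ℝ) (1 : Fin (m + 3))).continuous.comp_aestronglyMeasurable
      hgi.1
  have hPint : Integrable P := by
    refine IntegrableOn.integrable_indicator ?_ hKm
    exact ((integrableOn_devAt hKfin hU).const_mul 2).add (hg1.const_mul _)
  have hGs : ContDiff ℝ ∞ G := hρc.contDiff_convolution_left _ hρs hgint.locallyIntegrable
  have hQs : ContDiff ℝ ∞ Q := hρc.contDiff_convolution_left _ hρs hPint.locallyIntegrable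
  have hQint : Integrable Q :=
    (φ.contDiff_normed (n := 0) |>.continuous.integrable_of_hasCompactSupport hρc).integrable_convolution
      (ContinuousLinearMap.lsmul ℝ ℝ) hPint
  have hPnn : ∀ y, 0 ≤ P y := by
    intro y
    rw [hP]
    refine indicator_nonneg (fun y hy => ?_) y
    have h1 := (htube y hy).1
    have h2 := devAt_nonneg (U y)
    positivity
  have hQnn : ∀ x, 0 ≤ Q x := by
    intro x
    rw [hQ, convolution_lsmul_swap]
    exact integral_nonneg fun t => smul_nonneg (φ.nonneg_normed _) (hPnn t)
  have hQint_eq : ∫ x, Q x = ∫ x, P x := by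
    rw [hQ, integral_convolution (ContinuousLinearMap.lsmul ℝ ℝ)
      (φ.contDiff_normed (n := 0) |>.continuous.integrable_of_hasCompactSupport hρc) hPint,
      φ.integral_normed]
    simp
  have hGdist : ∀ x ∈ K₁, dist (G x) (g x) ≤ η / 2 := by
    intro x hx
    have hxK : x ∈ K := hK₁K hx
    have h := φ.dist_normed_convolution_le (μ := (volume : Measure (E (m + 3))))
      (g := K.indicator g) (x₀ := x) (ε := η / 2) hgint.1 (by
        intro y hy
        rw [hφ] at hy
        have hyK : y ∈ K := hball x hx (ball_subset_closedBall hy)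
        rw [indicator_of_mem hyK, indicator_of_mem hxK]
        exact (hδg y hyK x hxK ((mem_ball.1 hy).trans hεδ)).le)
    rwa [indicator_of_mem hxK] at h
  have hGtube : ∀ x ∈ K₁, G x ∈ tube m := by
    intro x hx
    refine hηtube (mem_thickening_iff.2 ⟨g x, mem_image_of_mem _ hx, ?_⟩)
    exact (hGdist x hx).trans_lt (by linarith)
  -- the line inequality
  have hline : ∀ x ∈ closedBall c r, L / 32 ≤ ∫ s in (0 : ℝ)..L, Q (x + s • stdVec 0) := by
    intro x hx
    have hmem : ∀ s ∈ Icc (0 : ℝ) L, x + s • stdVec 0 ∈ K₁ := by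
      intro s hs
      rw [hK₁, mem_closedBall]
      calc dist (x + s • stdVec 0) c ≤ dist (x + s • stdVec 0) x + dist x c := dist_triangle _ _ _
        _ ≤ L + r := by
          gcongr
          · rw [dist_self_add_left, norm_smul]
            simp [abs_of_nonneg hs.1, hs.2]
          · exact mem_closedBall.1 hx
        _ = r + L := add_comm _ _
    set D : ℝ → E (m + 3) := fun s => fderiv ℝ G (x + s • stdVec 0) (stdVec 0) with hD
    have hDc : Continuous D := by
      have h1 : Continuous fun y => fderiv ℝ G y (stdVec 0) :=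
        (hGs.continuous_fderiv (by simp)).clm_apply continuous_const
      exact h1.comp (by fun_prop)
    have hderiv : ∀ s, HasDerivAt (fun s : ℝ => G (x + s • stdVec 0)) (D s) s := by
      intro s
      have h1 : HasFDerivAt G (fderiv ℝ G (x + s • stdVec 0)) (x + s • stdVec 0) :=
        (hGs.differentiable (by simp)).differentiableAt.hasFDerivAt
      have h2 : HasDerivAt (fun s : ℝ => x + s • (stdVec 0 : E (m + 3))) (stdVec 0) s := by
        simpa using ((hasDerivAt_id s).smul_const (stdVec 0 : E (m + 3))).const_add x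
      exact h1.comp_hasDerivAt s h2
    have hcoordderiv : ∀ (i : Fin (m + 3)) s,
        HasDerivAt (fun s : ℝ => G (x + s • stdVec 0) i) (D s i) s := by
      intro i s
      exact ((EuclideanSpace.proj (𝕜 := ℝ) i).hasFDerivAt.comp_hasDerivAt s (hderiv s))
    have hDci : ∀ i : Fin (m + 3), Continuous fun s => D s i := fun i =>
      (EuclideanSpace.proj (𝕜 := ℝ) i).continuous.comp hDc
    have hpath : PathData (fun s => G (x + s • stdVec 0) 0) (fun s => G (x + s • stdVec 0) 1)
        (fun s => G (x + s • stdVec 0) 2) (fun s => D s 0) (fun s => D s 1) (fun s => D s 2) :=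
      ⟨hcoordderiv 0, hcoordderiv 1, hcoordderiv 2, hDci 0, hDci 1, hDci 2⟩
    have hl := hpath.line (x := 0) (L := L) hL hL1 (by
      intro s hs
      rw [zero_add] at hs
      exact hGtube _ (hmem s hs))
    rw [zero_add] at hl
    refine hl.trans ?_
    have hcα : Continuous fun s : ℝ => G (x + s • stdVec 0) 1 :=
      continuous_iff_continuousAt.2 fun s => (hcoordderiv 1 s).continuousAt
    rw [← intervalIntegral.integral_const_mul, ← intervalIntegral.integral_add
      ((hpath.dev_continuous.const_mul 2).intervalIntegrable _ _)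
      ((hcα.const_mul _).intervalIntegrable _ _)]
    refine intervalIntegral.integral_mono_on hL.le ?_ ?_ ?_
    · exact (((hpath.dev_continuous.const_mul 2).add (hcα.const_mul _)).intervalIntegrable _ _)
    · exact (hQs.continuous.comp (by fun_prop)).intervalIntegrable _ _
    · intro s hs
      have hb := conv_bound hKm hKfin hgi hU φ (hball _ (hmem s hs)) (4 * L)⁻¹
      have hd := mollify_deriv hKm hK hweak hgi φ (hball _ (hmem s hs))
      rw [← hd] at hb
      exact hb
  -- integrate over the ball
  set B := closedBall c r with hB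
  have hBfin : volume B ≠ ⊤ := (isCompact_closedBall c r).measure_ne_top
  have hswapint : Integrable (Function.uncurry fun (x : E (m + 3)) (s : ℝ) =>
      Q (x + s • stdVec 0)) ((volume.restrict B).prod (volume.restrict (Ioc 0 L))) := by
    rw [Measure.prod_restrict]
    have hc : Continuous (Function.uncurry fun (x : E (m + 3)) (s : ℝ) =>
      Q (x + s • stdVec 0)) := by
      exact hQs.continuous.comp (by fun_prop)
    have hcomp : IsCompact (B ×ˢ Icc (0 : ℝ) L) := (isCompact_closedBall c r).prod isCompact_Icc
    exact (hc.continuousOn.integrableOn_compact hcomp).mono_set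
      (prod_mono le_rfl Ioc_subset_Icc_self)
  have hlow : volume.real B * (L / 32) ≤ ∫ x in B, ∫ s in Ioc 0 L, Q (x + s • stdVec 0) := by
    have h1 : ∫ x in B, (L / 32 : ℝ) = volume.real B * (L / 32) := by
      rw [setIntegral_const, smul_eq_mul]
    rw [← h1]
    refine setIntegral_mono_on (integrableOn_const hBfin) hswapint.integral_prod_left
      measurableSet_closedBall ?_
    intro x hx
    have := hline x hx
    rwa [intervalIntegral.integral_of_le hL.le] at this
  have hupp : ∫ x in B, ∫ s in Ioc 0 L, Q (x + s • stdVec 0) ≤ L * ∫ x, Q x := by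
    rw [integral_integral_swap hswapint]
    have hpt : ∀ s : ℝ, ∫ x in B, Q (x + s • stdVec 0) ≤ ∫ x, Q x := by
      intro s
      have hsh : Integrable fun x => Q (x + s • stdVec 0) := hQint.comp_add_right _
      calc ∫ x in B, Q (x + s • stdVec 0) ≤ ∫ x, Q (x + s • stdVec 0) :=
            setIntegral_le_integral hsh (Eventually.of_forall fun x => hQnn _)
        _ = ∫ x, Q x := integral_add_right_eq_self _ _
    calc ∫ s in Ioc 0 L, ∫ x in B, Q (x + s • stdVec 0) ≤ ∫ s in Ioc (0 : ℝ) L, ∫ x, Q x := by
          refine setIntegral_mono_on hswapint.integral_prod_right (integrableOn_const (by simp))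
            measurableSet_Ioc (fun s _ => hpt s)
      _ = L * ∫ x, Q x := by
          rw [setIntegral_const, smul_eq_mul]
          congr 1
          simp [hL.le]
  have hPeq : ∫ x, P x = ∫ x in K, (2 * devAt (U x) + (4 * L)⁻¹ * g x 1) := by
    rw [hP, integral_indicator hKm]
  rw [hQint_eq, hPeq] at hupp
  have hfin := hlow.trans hupp
  have : L * (volume.real B / 32) ≤
      L * ∫ x in K, (2 * devAt (U x) + (4 * L)⁻¹ * g x 1) := by
    calc L * (volume.real B / 32) = volume.real B * (L / 32) := by ring
      _ ≤ _ := hfin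
  exact le_of_mul_le_mul_left this hL

end Pool.Agent.SobClos
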