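import Mathlib
import Pool.Agent.SobClos.Defs
import Pool.Agent.SobClos.Needles
import Pool.Agent.SobClos.Path
import Pool.Agent.SobClos.Mollify
import Pool.Agent.SobClos.LipMaps

/-!
The convex wedge, the bi-Lipschitz shear and the sequence of homeomorphisms.
-/

open MeasureTheory Filter Topology Set Metric
open scoped ENNReal NNReal RealInnerProductSpace

namespace Pool.Agent.SobClos

section Scalars

/-- The scaling factor. -/
noncomputable def lam (ε a : ℝ) : ℝ := max ε (2 - 1 / max a (1 / 2))

/-- The inverse scaling factor. -/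
noncomputable def mu (ε b : ℝ) : ℝ := min (1 / ε) (1 / 2 + 1 / (2 * b))

lemma lam_pos {ε a : ℝ} (hε : 0 < ε) : 0 < lam ε a := lt_max_of_lt_left hε

lemma lam_le_one {ε a : ℝ} (hε : ε ≤ 1) (ha : a ≤ 1) : lam ε a ≤ 1 := by
  unfold lam
  refine max_le hε ?_
  have h1 : max a (1 / 2) ≤ 1 := max_le ha (by norm_num)
  have h2 : 0 < max a (1 / 2) := lt_max_of_lt_right (by norm_num)
  have : 1 ≤ 1 / max a (1 / 2) := by
    rw [le_div_iff₀ h2]; linarith
  linarith

lemma lam_nonneg {ε a : ℝ} (hε : 0 ≤ ε) : 0 ≤ lam ε a := le_max_of_le_left hε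

lemma lam_zero_of_le {a : ℝ} (ha : a ≤ 1 / 2) : lam 0 a = 0 := by
  unfold lam
  rw [max_eq_right ha]; norm_num

lemma mu_pos {ε b : ℝ} (hε : 0 < ε) (hb : 0 < b) : 0 < mu ε b := by
  unfold mu
  exact lt_min (by positivity) (by positivity)

lemma lam_lipschitz (ε : ℝ) {a b : ℝ} : |lam ε a - lam ε b| ≤ 4 * |a - b| := by
  unfold lam
  refine (abs_max_sub_max_le_max _ _ _ _).trans ?_
  rw [sub_self, abs_zero]
  refine max_le (by positivity) ?_
  have h1 : 1 / 2 ≤ max a (1 / 2) := le_max_right _ _
  have h2 : 1 / 2 ≤ max b (1 / 2) := le_max_right _ _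
  have hm : |max a (1 / 2) - max b (1 / 2)| ≤ |a - b| := by
    refine (abs_max_sub_max_le_max _ _ _ _).trans ?_
    simp
  set x := max a (1 / 2)
  set y := max b (1 / 2)
  have hx : 0 < x := by linarith
  have hy : 0 < y := by linarith
  have : 2 - 1 / x - (2 - 1 / y) = (x - y) / (x * y) := by field_simp; ring
  rw [this, abs_div, abs_of_pos (mul_pos hx hy), div_le_iff₀ (mul_pos hx hy)]
  have hxy : 1 / 4 ≤ x * y := by nlinarith
  calc |x - y| ≤ |a - b| := hm
    _ = 4 * |a - b| * (1 / 4) := by ring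
    _ ≤ 4 * |a - b| * (x * y) := by gcongr

lemma lam_mul_lt_one {ε a : ℝ} (hε : 0 < ε) (hε1 : ε ≤ 1) (ha : 0 < a) (ha1 : a < 1) :
    lam ε a * a < 1 := by
  have h1 := lam_le_one hε1 ha1.le
  have h2 := lam_pos (a := a) hε
  nlinarith

lemma mu_mul_lt_one {ε b : ℝ} (hb : 0 < b) (hb1 : b < 1) : mu ε b * b < 1 := by
  have h1 : mu ε b ≤ 1 / 2 + 1 / (2 * b) := min_le_right _ _
  calc mu ε b * b ≤ (1 / 2 + 1 / (2 * b)) * b := by gcongr
    _ = (b + 1) / 2 := by field_simp
    _ < 1 := by linarith

lemma mu_lam {ε a : ℝ} (hε : 0 < ε) (ha : 0 < a) : mu ε (lam ε a * a) * lam ε a = 1 := by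
  by_cases hcase : 2 - 1 / max a (1 / 2) ≤ ε
  · have hl : lam ε a = ε := max_eq_left hcase
    have hkey : 2 * a - 1 ≤ ε * a := by
      by_cases ha2 : a ≤ 1 / 2
      · have : 0 < ε * a := by positivity
        linarith
      · push Not at ha2
        rw [max_eq_left ha2.le] at hcase
        have : (2 - 1 / a) * a ≤ ε * a := by gcongr
        have h2 : (2 - 1 / a) * a = 2 * a - 1 := by field_simp
        linarith
    rw [hl]
    unfold mu
    rw [min_eq_left]
    · field_simp
    · rw [div_add_div _ _ (by norm_num) (by positivity), div_le_div_iff₀ hε (by positivity)]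
      nlinarith
  · push Not at hcase
    have ha2 : 1 / 2 < a := by
      by_contra hcon
      push Not at hcon
      rw [max_eq_right hcon] at hcase
      norm_num at hcase
      linarith
    rw [max_eq_left ha2.le] at hcase
    have hl : lam ε a = 2 - 1 / a := by
      unfold lam
      rw [max_eq_left ha2.le, max_eq_right hcase.le]
    have hla : lam ε a * a = 2 * a - 1 := by rw [hl]; field_simp
    rw [hla, hl]
    have h21 : 0 < 2 * a - 1 := by linarith
    have hpos : 0 < 2 - 1 / a := hε.trans hcase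
    have hmu : mu ε (2 * a - 1) = 1 / 2 + 1 / (2 * (2 * a - 1)) := by
      unfold mu
      refine min_eq_right ?_
      have e : 1 / 2 + 1 / (2 * (2 * a - 1)) = 1 / (2 - 1 / a) := by
        have : 2 - 1 / a = (2 * a - 1) / a := by field_simp
        rw [this]
        field_simp
        ring
      rw [e]
      exact one_div_le_one_div_of_le hε hcase.le
    rw [hmu]
    field_simp
    ring

lemma lam_mu {ε b : ℝ} (hε : 0 < ε) (hb : 0 < b) : lam ε (mu ε b * b) * mu ε b = 1 := by
  by_cases hcase : 1 / ε ≤ 1 / 2 + 1 / (2 * b)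
  · have hm : mu ε b = 1 / ε := min_eq_left hcase
    rw [hm]
    have hl : lam ε (1 / ε * b) = ε := by
      unfold lam
      refine max_eq_left ?_
      by_cases ha2 : 1 / ε * b ≤ 1 / 2
      · rw [max_eq_right ha2]; norm_num; exact hε.le
      · push Not at ha2
        rw [max_eq_left ha2.le]
        have h1 : 1 / (1 / ε * b) = ε / b := by field_simp
        rw [h1]
        have h2 : 2 * b ≤ ε * (b + 1) := by
          rw [div_add_div _ _ (by norm_num) (by positivity), div_le_div_iff₀ hε (by positivity)]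
            at hcase
          nlinarith
        have h3 : (2 - ε / b) * b ≤ ε * b := by
          have : (2 - ε / b) * b = 2 * b - ε := by field_simp
          rw [this]; linarith
        exact le_of_mul_le_mul_right h3 hb
    rw [hl]
    field_simp
  · push Not at hcase
    have hm : mu ε b = 1 / 2 + 1 / (2 * b) := min_eq_right hcase.le
    rw [hm]
    have hab : (1 / 2 + 1 / (2 * b)) * b = (b + 1) / 2 := by field_simp
    rw [hab]
    have hl : lam ε ((b + 1) / 2) = 2 - 2 / (b + 1) := by
      unfold lam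
      have h1 : 1 / 2 ≤ (b + 1) / 2 := by linarith
      rw [max_eq_left h1]
      have h2 : 1 / ((b + 1) / 2) = 2 / (b + 1) := by field_simp
      rw [h2]
      refine max_eq_right ?_
      have h3 : 1 / 2 + 1 / (2 * b) = (b + 1) / (2 * b) := by field_simp
      rw [h3, div_lt_div_iff₀ (by positivity) hε] at hcase
      have h4 : 2 - 2 / (b + 1) = 2 * b / (b + 1) := by field_simp; ring
      rw [h4, le_div_iff₀ (by positivity)]
      linarith
    rw [hl]
    field_simp
    ring

end Scalars

section Geometry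

variable {m : ℕ}

/-- The open convex wedge in `ℝ^{m+3}`. -/
def wedge (m : ℕ) : Set (E (m + 3)) :=
  {x | (∀ i, i ≠ 2 → 0 < x i ∧ x i < 1) ∧ |x 2| < x 1}

lemma fin_one_ne_two : (1 : Fin (m + 3)) ≠ 2 := by
  intro h
  have := congrArg Fin.val h
  rw [Fin.val_one, Fin.val_two] at this
  omega

lemma fin_zero_ne_two : (0 : Fin (m + 3)) ≠ 2 := by
  intro h
  have := congrArg Fin.val h
  rw [Fin.val_zero, Fin.val_two] at this
  omega

lemma fin_zero_ne_one : (0 : Fin (m + 3)) ≠ 1 := by
  intro h
  have := congrArg Fin.val h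
  rw [Fin.val_zero, Fin.val_one] at this
  omega

lemma abs_coord_sub_le (x y : E (m + 3)) (i : Fin (m + 3)) : |x i - y i| ≤ ‖x - y‖ := by
  have := PiLp.norm_apply_le (x - y) i
  simpa using this

/-- The shear. -/
noncomputable def shear (x : E (m + 3)) : E (m + 3) := x + needleH (x 0, x 1) • stdVec 2

/-- The inverse of the shear. -/
noncomputable def unshear (x : E (m + 3)) : E (m + 3) := x - needleH (x 0, x 1) • stdVec 2

lemma shear_apply_of_ne (x : E (m + 3)) {i : Fin (m + 3)} (hi : i ≠ 2) : shear x i = x i := by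
  simp [shear, hi]

lemma shear_apply_two (x : E (m + 3)) : shear x 2 = x 2 + needleH (x 0, x 1) := by
  simp [shear]

lemma unshear_apply_of_ne (x : E (m + 3)) {i : Fin (m + 3)} (hi : i ≠ 2) :
    unshear x i = x i := by
  simp [unshear, hi]

lemma unshear_apply_two (x : E (m + 3)) : unshear x 2 = x 2 - needleH (x 0, x 1) := by
  simp [unshear]

lemma abs_needleH_sub_le (x y : E (m + 3)) :
    |needleH (x 0, x 1) - needleH (y 0, y 1)| ≤ 8 * ‖x - y‖ := by
  have h := needleH_lipschitz.dist_le_mul (x 0, x 1) (y 0, y 1)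
  rw [Real.dist_eq, Prod.dist_eq, Real.dist_eq, Real.dist_eq] at h
  refine h.trans ?_
  push_cast
  have h0 := abs_coord_sub_le x y 0
  have h1 := abs_coord_sub_le x y 1
  have : max |(x 0) - (y 0)| |(x 1) - (y 1)| ≤ ‖x - y‖ := max_le h0 h1
  exact mul_le_mul_of_nonneg_left this (by norm_num)

lemma shear_lipschitz : LipschitzWith 9 (shear (m := m)) := by
  refine LipschitzWith.of_dist_le_mul fun x y => ?_
  rw [dist_eq_norm, dist_eq_norm]
  have e : shear x - shear y = (x - y) +
      (needleH (x 0, x 1) - needleH (y 0, y 1)) • (stdVec 2 : E (m + 3)) := by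
    unfold shear; module
  rw [e]
  have h1 := norm_add_le (x - y)
    ((needleH (x 0, x 1) - needleH (y 0, y 1)) • (stdVec 2 : E (m + 3)))
  rw [norm_smul, norm_stdVec, mul_one, Real.norm_eq_abs] at h1
  have h2 := abs_needleH_sub_le x y
  push_cast
  linarith

lemma unshear_lipschitz : LipschitzWith 9 (unshear (m := m)) := by
  refine LipschitzWith.of_dist_le_mul fun x y => ?_
  rw [dist_eq_norm, dist_eq_norm]
  have e : unshear x - unshear y = (x - y) -
      (needleH (x 0, x 1) - needleH (y 0, y 1)) • (stdVec 2 : E (m + 3)) := by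
    unfold unshear; module
  rw [e]
  have h1 := norm_sub_le (x - y)
    ((needleH (x 0, x 1) - needleH (y 0, y 1)) • (stdVec 2 : E (m + 3)))
  rw [norm_smul, norm_stdVec, mul_one, Real.norm_eq_abs] at h1
  have h2 := abs_needleH_sub_le x y
  push_cast
  linarith

lemma unshear_shear (x : E (m + 3)) : unshear (shear x) = x := by
  unfold unshear
  rw [shear_apply_of_ne x fin_zero_ne_two, shear_apply_of_ne x fin_one_ne_two]
  unfold shear
  module

lemma shear_unshear (x : E (m + 3)) : shear (unshear x) = x := by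
  unfold shear
  rw [unshear_apply_of_ne x fin_zero_ne_two, unshear_apply_of_ne x fin_one_ne_two]
  unfold unshear
  module

/-- The shear as a homeomorphism of the whole space. -/
noncomputable def shearHomeo (m : ℕ) : E (m + 3) ≃ₜ E (m + 3) where
  toFun := shear
  invFun := unshear
  left_inv := unshear_shear
  right_inv := shear_unshear
  continuous_toFun := shear_lipschitz.continuous
  continuous_invFun := unshear_lipschitz.continuous

/-- Scaling of the coordinates `1` and `2`. -/
noncomputable def scale (r : ℝ) (x : E (m + 3)) : E (m + 3) :=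
  x + ((r - 1) * x 1) • stdVec 1 + ((r - 1) * x 2) • stdVec 2

lemma scale_apply_one (r : ℝ) (x : E (m + 3)) : scale r x 1 = r * x 1 := by
  simp [scale, fin_one_ne_two]; ring

lemma scale_apply_two (r : ℝ) (x : E (m + 3)) : scale r x 2 = r * x 2 := by
  simp [scale, fin_one_ne_two.symm]; ring

lemma scale_apply_of_ne (r : ℝ) (x : E (m + 3)) {i : Fin (m + 3)} (h1 : i ≠ 1) (h2 : i ≠ 2) :
    scale r x i = x i := by
  simp [scale, h1, h2]

lemma scale_scale {r s : ℝ} (h : r * s = 1) (x : E (m + 3)) : scale r (scale s x) = x := by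
  ext i
  by_cases h1 : i = 1
  · subst h1
    rw [scale_apply_one, scale_apply_one, ← mul_assoc, h, one_mul]
  · by_cases h2 : i = 2
    · subst h2
      rw [scale_apply_two, scale_apply_two, ← mul_assoc, h, one_mul]
    · rw [scale_apply_of_ne _ _ h1 h2, scale_apply_of_ne _ _ h1 h2]

lemma scale_mem_wedge {r : ℝ} {x : E (m + 3)} (hx : x ∈ wedge m) (hr : 0 < r)
    (hr1 : r * x 1 < 1) : scale r x ∈ wedge m := by
  obtain ⟨hx1, hx2⟩ := hx
  refine ⟨fun i hi => ?_, ?_⟩
  · by_cases h1 : i = 1
    · subst h1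
      rw [scale_apply_one]
      exact ⟨mul_pos hr (hx1 1 hi).1, hr1⟩
    · rw [scale_apply_of_ne _ _ h1 hi]
      exact hx1 i hi
  · rw [scale_apply_one, scale_apply_two, abs_mul, abs_of_pos hr]
    gcongr

lemma isOpen_wedge (m : ℕ) : IsOpen (wedge m) := by
  have h : wedge m = (⋂ i : Fin (m + 3), {x : E (m + 3) | i ≠ 2 → 0 < x i ∧ x i < 1}) ∩
      {x | |x 2| < x 1} := by
    ext x; simp [wedge]
  rw [h]
  refine IsOpen.inter (isOpen_iInter_of_finite fun i => ?_) ?_
  · by_cases hi : i = 2
    · simp [hi]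
    · have : {x : E (m + 3) | i ≠ 2 → 0 < x i ∧ x i < 1} = {x | 0 < x i} ∩ {x | x i < 1} := by
        ext x; simp [hi]
      rw [this]
      exact (isOpen_lt (by fun_prop) (by fun_prop)).inter (isOpen_lt (by fun_prop) (by fun_prop))
  · exact isOpen_lt (by fun_prop) (by fun_prop)

lemma convex_wedge (m : ℕ) : Convex ℝ (wedge m) := by
  intro x hx y hy a b ha hb hab
  refine ⟨fun i hi => ?_, ?_⟩
  · have h1 := hx.1 i hi
    have h2 := hy.1 i hi
    simp only [PiLp.add_apply, PiLp.smul_apply, smul_eq_mul]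
    have := (convex_Ioo (0 : ℝ) 1) (x := x i) ⟨h1.1, h1.2⟩ (y := y i) ⟨h2.1, h2.2⟩ ha hb hab
    exact ⟨this.1, this.2⟩
  · have h1 := hx.2
    have h2 := hy.2
    simp only [PiLp.add_apply, PiLp.smul_apply, smul_eq_mul]
    calc |a * x 2 + b * y 2| ≤ |a * x 2| + |b * y 2| := abs_add_le _ _
      _ = a * |x 2| + b * |y 2| := by
        rw [abs_mul, abs_mul, abs_of_nonneg ha, abs_of_nonneg hb]
      _ < a * x 1 + b * y 1 := by
        rcases ha.eq_or_lt with h0 | h0
        · subst h0
          have hb1 : b = 1 := by linarith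
          subst hb1
          linarith
        · have e1 : a * |x 2| < a * x 1 := by gcongr
          have e2 : b * |y 2| ≤ b * y 1 := by gcongr
          linarith

lemma wedge_coord_le {x : E (m + 3)} (hx : x ∈ wedge m) (i : Fin (m + 3)) : |x i| ≤ 1 := by
  by_cases hi : i = 2
  · subst hi
    have h1 := hx.2
    have h2 := (hx.1 1 fin_one_ne_two).2
    linarith
  · have := hx.1 i hi
    rw [abs_of_pos this.1]; exact this.2.le

lemma isBounded_wedge (m : ℕ) : Bornology.IsBounded (wedge m) := by
  refine (Metric.isBounded_closedBall (x := (0 : E (m + 3)))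
    (r := Real.sqrt (m + 3 : ℕ) * 1)).subset fun x hx => ?_
  rw [mem_closedBall_zero_iff]
  exact norm_le_of_coord (by norm_num) (wedge_coord_le hx)

/-- The wedge is mapped by the shear into the tube. -/
lemma shear_mem_tube {x : E (m + 3)} (hx : x ∈ wedge m) : shear x ∈ tube m := by
  refine ⟨?_, ?_⟩
  · rw [shear_apply_of_ne x fin_one_ne_two]
    exact (hx.1 1 fin_one_ne_two).1
  · rw [shear_apply_of_ne x fin_one_ne_two, shear_apply_of_ne x fin_zero_ne_two, shear_apply_two]
    simpa using hx.2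

/-- Clamped coordinates. -/
noncomputable def cl (x : E (m + 3)) : ℝ := max 0 (min (x 1) 1)

/-- Clamped coordinates. -/
noncomputable def dl (x : E (m + 3)) : ℝ := max (-1) (min (x 2) 1)

lemma cl_nonneg (x : E (m + 3)) : 0 ≤ cl x := le_max_left _ _

lemma cl_le_one (x : E (m + 3)) : cl x ≤ 1 := max_le (by norm_num) (min_le_right _ _)

lemma abs_dl_le (x : E (m + 3)) : |dl x| ≤ 1 := by
  rw [abs_le]
  exact ⟨le_max_left _ _, max_le (by norm_num) (min_le_right _ _)⟩

lemma abs_cl_sub_le (x y : E (m + 3)) : |cl x - cl y| ≤ ‖x - y‖ := by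
  refine (le_trans ?_ (abs_coord_sub_le x y 1))
  unfold cl
  refine (abs_max_sub_max_le_max _ _ _ _).trans ?_
  rw [sub_self, abs_zero]
  refine max_le (abs_nonneg _) ?_
  refine (abs_min_sub_min_le_max _ _ _ _).trans ?_
  simp

lemma abs_dl_sub_le (x y : E (m + 3)) : |dl x - dl y| ≤ ‖x - y‖ := by
  refine (le_trans ?_ (abs_coord_sub_le x y 2))
  unfold dl
  refine (abs_max_sub_max_le_max _ _ _ _).trans ?_
  rw [sub_self, abs_zero]
  refine max_le (abs_nonneg _) ?_
  refine (abs_min_sub_min_le_max _ _ _ _).trans ?_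
  simp

/-- The second coordinate of the map. -/
noncomputable def pmap (ε : ℝ) (x : E (m + 3)) : ℝ := lam ε (cl x) * cl x

/-- The third coordinate of the map. -/
noncomputable def qmap (ε : ℝ) (x : E (m + 3)) : ℝ :=
  lam ε (cl x) * dl x + needleH (x 0, pmap ε x)

/-- The maps `f_ε`; for positive `ε` they are homeomorphisms of the wedge onto the sheared wedge,
for `ε = 0` half of the wedge is collapsed to the edge. -/
noncomputable def Gmap (ε : ℝ) (x : E (m + 3)) : E (m + 3) :=
  x + (pmap ε x - x 1) • stdVec 1 + (qmap ε x - x 2) • stdVec 2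

lemma Gmap_apply_one (ε : ℝ) (x : E (m + 3)) : Gmap ε x 1 = pmap ε x := by
  simp [Gmap, fin_one_ne_two]

lemma Gmap_apply_two (ε : ℝ) (x : E (m + 3)) : Gmap ε x 2 = qmap ε x := by
  simp [Gmap, fin_one_ne_two.symm]

lemma Gmap_apply_of_ne (ε : ℝ) (x : E (m + 3)) {i : Fin (m + 3)} (h1 : i ≠ 1) (h2 : i ≠ 2) :
    Gmap ε x i = x i := by
  simp [Gmap, h1, h2]

lemma abs_mul_sub_mul_le (a b c d : ℝ) : |a * b - c * d| ≤ |a| * |b - d| + |d| * |a - c| := by
  have : a * b - c * d = a * (b - d) + d * (a - c) := by ring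
  rw [this]
  refine (abs_add_le _ _).trans ?_
  rw [abs_mul, abs_mul]

lemma abs_lam_cl_le {ε : ℝ} (hε : 0 ≤ ε) (hε1 : ε ≤ 1) (x : E (m + 3)) :
    |lam ε (cl x)| ≤ 1 := by
  rw [abs_of_nonneg (lam_nonneg hε)]
  exact lam_le_one hε1 (cl_le_one x)

lemma abs_pmap_sub_le {ε : ℝ} (hε : 0 ≤ ε) (hε1 : ε ≤ 1) (x y : E (m + 3)) :
    |pmap ε x - pmap ε y| ≤ 5 * ‖x - y‖ := by
  unfold pmap
  refine (abs_mul_sub_mul_le _ _ _ _).trans ?_
  have h1 := abs_cl_sub_le x y
  have h2 := lam_lipschitz ε (a := cl x) (b := cl y)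
  have h3 := abs_lam_cl_le hε hε1 x
  have h4 : |cl y| ≤ 1 := by rw [abs_of_nonneg (cl_nonneg y)]; exact cl_le_one y
  calc |lam ε (cl x)| * |cl x - cl y| + |cl y| * |lam ε (cl x) - lam ε (cl y)|
      ≤ 1 * ‖x - y‖ + 1 * (4 * ‖x - y‖) := by
        gcongr
        exact h2.trans (by gcongr)
    _ = 5 * ‖x - y‖ := by ring

lemma abs_qmap_sub_le {ε : ℝ} (hε : 0 ≤ ε) (hε1 : ε ≤ 1) (x y : E (m + 3)) :
    |qmap ε x - qmap ε y| ≤ 45 * ‖x - y‖ := by
  unfold qmap
  have h1 := abs_dl_sub_le x y
  have h2 := lam_lipschitz ε (a := cl x) (b := cl y)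
  have h2' := abs_cl_sub_le x y
  have h3 := abs_lam_cl_le hε hε1 x
  have h4 := abs_dl_le y
  have hprod : |lam ε (cl x) * dl x - lam ε (cl y) * dl y| ≤ 5 * ‖x - y‖ := by
    refine (abs_mul_sub_mul_le _ _ _ _).trans ?_
    calc |lam ε (cl x)| * |dl x - dl y| + |dl y| * |lam ε (cl x) - lam ε (cl y)|
        ≤ 1 * ‖x - y‖ + 1 * (4 * ‖x - y‖) := by
          gcongr
          exact h2.trans (by gcongr)
      _ = 5 * ‖x - y‖ := by ring
  have hneedle : |needleH (x 0, pmap ε x) - needleH (y 0, pmap ε y)| ≤ 40 * ‖x - y‖ := by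
    have h := needleH_lipschitz.dist_le_mul (x 0, pmap ε x) (y 0, pmap ε y)
    rw [Real.dist_eq, Prod.dist_eq, Real.dist_eq, Real.dist_eq] at h
    refine h.trans ?_
    push_cast
    have h0 := abs_coord_sub_le x y 0
    have h1 := abs_pmap_sub_le hε hε1 x y
    have hn := norm_nonneg (x - y)
    have : max |(x 0) - (y 0)| |pmap ε x - pmap ε y| ≤ 5 * ‖x - y‖ :=
      max_le (by linarith) h1
    calc 8 * max |(x 0) - (y 0)| |pmap ε x - pmap ε y| ≤ 8 * (5 * ‖x - y‖) := by gcongr
      _ = 40 * ‖x - y‖ := by ring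
  have e : lam ε (cl x) * dl x + needleH (x 0, pmap ε x) -
      (lam ε (cl y) * dl y + needleH (y 0, pmap ε y)) =
      (lam ε (cl x) * dl x - lam ε (cl y) * dl y) +
      (needleH (x 0, pmap ε x) - needleH (y 0, pmap ε y)) := by ring
  rw [e]
  refine (abs_add_le _ _).trans ?_
  linarith

lemma coordLip_Gmap {ε : ℝ} (hε : 0 ≤ ε) (hε1 : ε ≤ 1) :
    CoordLip 45 (Gmap (m := m) ε) := by
  intro j
  refine LipschitzWith.of_dist_le_mul fun x y => ?_
  rw [Real.dist_eq, dist_eq_norm]
  push_cast
  have hn := norm_nonneg (x - y)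
  by_cases h1 : j = 1
  · subst h1
    rw [Gmap_apply_one, Gmap_apply_one]
    have := abs_pmap_sub_le hε hε1 x y
    linarith
  · by_cases h2 : j = 2
    · subst h2
      rw [Gmap_apply_two, Gmap_apply_two]
      exact abs_qmap_sub_le hε hε1 x y
    · rw [Gmap_apply_of_ne _ _ h1 h2, Gmap_apply_of_ne _ _ h1 h2]
      have := abs_coord_sub_le x y j
      linarith

/-- On the wedge the map is the composition of a scaling and the shear. -/
lemma Gmap_eq {ε : ℝ} {x : E (m + 3)} (hx : x ∈ wedge m) :
    Gmap ε x = shear (scale (lam ε (x 1)) x) := by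
  have h1 := hx.1 1 fin_one_ne_two
  have hc : cl x = x 1 := by
    unfold cl
    rw [min_eq_left h1.2.le, max_eq_right h1.1.le]
  have hd : dl x = x 2 := by
    have h2 := abs_lt.1 (hx.2.trans h1.2)
    unfold dl
    rw [min_eq_left h2.2.le, max_eq_right h2.1.le]
  have hp : pmap ε x = lam ε (x 1) * x 1 := by unfold pmap; rw [hc]
  ext i
  by_cases hi1 : i = 1
  · subst hi1
    rw [Gmap_apply_one, shear_apply_of_ne _ fin_one_ne_two, scale_apply_one, hp]
  · by_cases hi2 : i = 2
    · subst hi2
      rw [Gmap_apply_two, shear_apply_two, scale_apply_two, scale_apply_one,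
        scale_apply_of_ne _ _ fin_zero_ne_one fin_zero_ne_two]
      unfold qmap
      rw [hp, hc, hd]
    · rw [Gmap_apply_of_ne _ _ hi1 hi2, shear_apply_of_ne _ hi2, scale_apply_of_ne _ _ hi1 hi2]

lemma continuous_scale_lam (ε : ℝ) :
    Continuous fun x : E (m + 3) => scale (lam ε (x 1)) x := by
  have h : Continuous fun a : ℝ => lam ε a := by
    unfold lam
    refine continuous_const.max (continuous_const.sub ?_)
    refine continuous_const.div (by fun_prop) fun a => ?_
    have : 0 < max a (1 / 2) := lt_max_of_lt_right (by norm_num)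
    exact this.ne'
  have h1 : Continuous fun x : E (m + 3) => lam ε (x 1) := h.comp (by fun_prop)
  unfold scale
  fun_prop

/-- The homeomorphism of the wedge onto the sheared wedge. -/
lemma isHomeoOnto_Gmap {ε : ℝ} (hε : 0 < ε) (hε1 : ε ≤ 1) :
    IsHomeoOnto (wedge m) (shearHomeo m '' wedge m) (Gmap ε) := by
  have hmaps : ∀ x ∈ wedge m, scale (lam ε (x 1)) x ∈ wedge m := fun x hx =>
    scale_mem_wedge hx (lam_pos hε)
      (lam_mul_lt_one hε hε1 (hx.1 1 fin_one_ne_two).1 (hx.1 1 fin_one_ne_two).2)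
  have hmaps' : ∀ y ∈ wedge m, scale (mu ε (y 1)) y ∈ wedge m := fun y hy =>
    scale_mem_wedge hy (mu_pos hε (hy.1 1 fin_one_ne_two).1)
      (mu_mul_lt_one (hy.1 1 fin_one_ne_two).1 (hy.1 1 fin_one_ne_two).2)
  have hinv : ∀ z ∈ shearHomeo m '' wedge m, unshear z ∈ wedge m := by
    rintro _ ⟨y, hy, rfl⟩
    change unshear (shear y) ∈ wedge m
    rwa [unshear_shear]
  let e : wedge m ≃ₜ (shearHomeo m '' wedge m : Set (E (m + 3))) :=
    { toFun := fun x => ⟨shear (scale (lam ε (x.1 1)) x.1), _, hmaps x.1 x.2, rfl⟩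
      invFun := fun z => ⟨scale (mu ε (unshear z.1 1)) (unshear z.1), hmaps' _ (hinv z.1 z.2)⟩
      left_inv := by
        rintro ⟨x, hx⟩
        apply Subtype.ext
        simp only
        rw [unshear_shear, scale_apply_one]
        exact scale_scale (mu_lam hε (hx.1 1 fin_one_ne_two).1) x
      right_inv := by
        rintro ⟨z, hz⟩
        apply Subtype.ext
        simp only
        rw [scale_apply_one, scale_scale (lam_mu hε ((hinv z hz).1 1 fin_one_ne_two).1),
          shear_unshear]
      continuous_toFun := by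
        refine Continuous.subtype_mk ?_ _
        exact shear_lipschitz.continuous.comp ((continuous_scale_lam ε).comp continuous_subtype_val)
      continuous_invFun := by
        refine Continuous.subtype_mk ?_ _
        have hu : Continuous fun z : (shearHomeo m '' wedge m : Set (E (m + 3))) =>
            unshear z.1 := unshear_lipschitz.continuous.comp continuous_subtype_val
        have hu1 : Continuous fun z : (shearHomeo m '' wedge m : Set (E (m + 3))) =>
            unshear z.1 1 := by
          exact (EuclideanSpace.proj (𝕜 := ℝ) (1 : Fin (m + 3))).continuous.comp hu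
        have hu2 : Continuous fun z : (shearHomeo m '' wedge m : Set (E (m + 3))) =>
            unshear z.1 2 := by
          exact (EuclideanSpace.proj (𝕜 := ℝ) (2 : Fin (m + 3))).continuous.comp hu
        have hmu : Continuous fun z : (shearHomeo m '' wedge m : Set (E (m + 3))) =>
            mu ε (unshear z.1 1) := by
          unfold mu
          refine continuous_const.min (continuous_const.add ?_)
          refine continuous_const.div (continuous_const.mul hu1) fun z => ?_
          have := ((hinv z.1 z.2).1 1 fin_one_ne_two).1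
          positivity
        unfold scale
        fun_prop }
  exact ⟨e, fun x => Gmap_eq x.2⟩

lemma tendsto_Gmap (x : E (m + 3)) :
    Tendsto (fun k : ℕ => Gmap (1 / ((k : ℝ) + 1)) x) atTop (𝓝 (Gmap 0 x)) := by
  have hc : Continuous fun ε : ℝ => Gmap ε x := by
    have h1 : Continuous fun ε : ℝ => lam ε (cl x) := by unfold lam; fun_prop
    have h2 : Continuous fun ε : ℝ => pmap ε x := by unfold pmap; fun_prop
    have h3 : Continuous fun ε : ℝ => qmap ε x := by
      unfold qmap
      exact (h1.mul continuous_const).add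
        (needleH_continuous.comp (continuous_const.prodMk h2))
    unfold Gmap
    fun_prop
  exact (hc.tendsto 0).comp tendsto_one_div_add_atTop_nhds_zero_nat

lemma Gmap_mem_closure {x : E (m + 3)} (hx : x ∈ wedge m) :
    Gmap 0 x ∈ closure (shearHomeo m '' wedge m) := by
  refine mem_closure_of_tendsto (tendsto_Gmap x) (Eventually.of_forall fun k => ?_)
  have hpos : (0 : ℝ) < 1 / ((k : ℝ) + 1) := by positivity
  have hle : 1 / ((k : ℝ) + 1) ≤ 1 := by
    rw [div_le_one (by positivity)]
    have : (0 : ℝ) ≤ k := Nat.cast_nonneg k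
    linarith
  rw [Gmap_eq hx]
  exact ⟨_, scale_mem_wedge hx (lam_pos hpos)
      (lam_mul_lt_one hpos hle (hx.1 1 fin_one_ne_two).1 (hx.1 1 fin_one_ne_two).2), rfl⟩

end Geometry

end Pool.Agent.SobClos
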