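import Mathlib
import Pool.Agent.SobClos.Example

/-!
The limit map is not a strong limit of homeomorphisms.
-/

open MeasureTheory Filter Topology Set Metric
open scoped ENNReal NNReal RealInnerProductSpace

namespace Pool.Agent.SobClos

/-- Convergence in `L^p` implies convergence in `L^1` on finite measure spaces. -/
lemma tendsto_integral_norm_sub {α : Type*} [MeasurableSpace α] {μ : Measure α}
    [IsFiniteMeasure μ] {F : Type*} [NormedAddCommGroup F] {p : ℝ≥0∞} (hp1 : 1 ≤ p)
    {u : ℕ → α → F} {v : α → F} (hu : ∀ k, MemLp (u k) p μ) (hv : MemLp v p μ)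
    (h : Tendsto (fun k => eLpNorm (fun x => u k x - v x) p μ) atTop (𝓝 0)) :
    Tendsto (fun k => ∫ x, ‖u k x - v x‖ ∂μ) atTop (𝓝 0) := by
  have hexp : 0 ≤ 1 / (1 : ℝ≥0∞).toReal - 1 / p.toReal := by
    rw [ENNReal.toReal_one, div_one, sub_nonneg]
    by_cases hp : p = ⊤
    · rw [hp]; simp
    · have h1p : 1 ≤ p.toReal := by
        rw [← ENNReal.toReal_one]
        exact (ENNReal.toReal_le_toReal (by simp) hp).2 hp1
      rw [div_le_one (by linarith)]
      exact h1p
  have hfin : μ univ ^ (1 / (1 : ℝ≥0∞).toReal - 1 / p.toReal) ≠ ⊤ :=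
    ENNReal.rpow_ne_top_of_nonneg hexp (measure_ne_top μ univ)
  have hle : ∀ k, ENNReal.ofReal (∫ x, ‖u k x - v x‖ ∂μ) ≤
      eLpNorm (fun x => u k x - v x) p μ *
        μ univ ^ (1 / (1 : ℝ≥0∞).toReal - 1 / p.toReal) := by
    intro k
    have hint : Integrable (fun x => u k x - v x) μ :=
      ((hu k).integrable hp1).sub (hv.integrable hp1)
    rw [ofReal_integral_norm_eq_lintegral_enorm hint, ← eLpNorm_one_eq_lintegral_enorm]
    exact eLpNorm_le_eLpNorm_mul_rpow_measure_univ hp1 hint.1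
  have h0 : Tendsto (fun k => eLpNorm (fun x => u k x - v x) p μ *
      μ univ ^ (1 / (1 : ℝ≥0∞).toReal - 1 / p.toReal)) atTop (𝓝 0) := by
    have := ENNReal.Tendsto.mul_const h (Or.inr hfin)
    simpa using this
  have h1 : Tendsto (fun k => ENNReal.ofReal (∫ x, ‖u k x - v x‖ ∂μ)) atTop (𝓝 0) :=
    tendsto_of_tendsto_of_tendsto_of_le_of_le tendsto_const_nhds h0 (fun k => zero_le) hle
  have h2 := (ENNReal.tendsto_toReal ENNReal.zero_ne_top).comp h1
  refine (h2.congr fun k => ?_).trans (by simp)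
  exact ENNReal.toReal_ofReal (integral_nonneg fun x => norm_nonneg _)

variable {m : ℕ}

/-- The centre of a small ball in the collapsed part of the wedge. -/
noncomputable def centre (m : ℕ) : E (m + 3) :=
  WithLp.toLp 2 fun i => if i = 1 then 1 / 4 else if i = 2 then 0 else 1 / 2

lemma ball_sub : ∀ x ∈ closedBall (centre m) (1 / 16), x ∈ wedge m ∧ x 1 ≤ 1 / 2 := by
  intro x hx
  have hc : ∀ i, |x i - centre m i| ≤ 1 / 16 := by
    intro i
    refine (abs_coord_sub_le x (centre m) i).trans ?_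
    rwa [mem_closedBall, dist_eq_norm] at hx
  have h1 : centre m 1 = 1 / 4 := by simp [centre]
  have h2 : centre m 2 = 0 := by simp [centre, fin_one_ne_two.symm]
  have hx1 := abs_le.1 (hc 1)
  have hx2 := hc 2
  rw [h1] at hx1
  rw [h2, sub_zero] at hx2
  refine ⟨⟨fun i hi => ?_, ?_⟩, ?_⟩
  · by_cases hi1 : i = 1
    · subst hi1
      constructor <;> linarith [hx1.1, hx1.2]
    · have h3 : centre m i = 1 / 2 := by simp [centre, hi, hi1]
      have := abs_le.1 (hc i)
      rw [h3] at this
      constructor <;> linarith [this.1, this.2]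
  · linarith [hx1.1]
  · linarith [hx1.2]

lemma cl_of_wedge {x : E (m + 3)} (hx : x ∈ wedge m) : cl x = x 1 := by
  have h1 := hx.1 1 fin_one_ne_two
  unfold cl
  rw [min_eq_left h1.2.le, max_eq_right h1.1.le]

/-- In the collapsed region the two transversal coordinates vanish. -/
lemma Gmap_zero_collapsed {x : E (m + 3)} (hx : cl x ≤ 1 / 2) :
    Gmap 0 x 1 = 0 ∧ Gmap 0 x 2 = 0 := by
  have hp : pmap 0 x = 0 := by
    unfold pmap
    rw [lam_zero_of_le hx, zero_mul]
  refine ⟨?_, ?_⟩
  · rw [Gmap_apply_one, hp]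
  · rw [Gmap_apply_two]
    unfold qmap
    rw [hp, lam_zero_of_le hx, zero_mul, needleH_of_nonpos le_rfl, add_zero]

lemma cl_add_smul (x : E (m + 3)) (t : ℝ) : cl (x + t • stdVec 0) = cl x := by
  unfold cl
  have : (x + t • (stdVec 0 : E (m + 3))) 1 = x 1 := by
    simp [fin_zero_ne_one.symm]
  rw [this]

/-- In the collapsed region the derivative in the direction of the edge is the unit vector. -/
lemma devAt_partial_zero {x : E (m + 3)} (hx : cl x ≤ 1 / 2) :
    lipPartial (Gmap 0) 0 x 0 = 1 ∧ lipPartial (Gmap 0) 0 x 1 = 0 ∧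
      lipPartial (Gmap 0) 0 x 2 = 0 := by
  refine ⟨?_, ?_, ?_⟩
  · rw [lipPartial_apply]
    unfold lineDeriv
    have : (fun t : ℝ => Gmap 0 (x + t • stdVec 0) 0) = fun t : ℝ => x 0 + t := by
      ext t
      rw [Gmap_apply_of_ne _ _ fin_zero_ne_one fin_zero_ne_two]
      simp
    rw [this]
    simp
  · rw [lipPartial_apply]
    unfold lineDeriv
    have : (fun t : ℝ => Gmap 0 (x + t • stdVec 0) 1) = fun _ : ℝ => 0 := by
      ext t
      exact (Gmap_zero_collapsed (by rwa [cl_add_smul])).1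
    rw [this]
    simp
  · rw [lipPartial_apply]
    unfold lineDeriv
    have : (fun t : ℝ => Gmap 0 (x + t • stdVec 0) 2) = fun _ : ℝ => 0 := by
      ext t
      exact (Gmap_zero_collapsed (by rwa [cl_add_smul])).2
    rw [this]
    simp

lemma devAt_le_norm_sub {v v₀ : E (m + 3)} (h0 : v₀ 0 = 1) (h1 : v₀ 1 = 0) (h2 : v₀ 2 = 0) :
    devAt v ≤ 3 * ‖v - v₀‖ := by
  unfold devAt
  have e0 := abs_coord_sub_le v v₀ 0
  have e1 := abs_coord_sub_le v v₀ 1
  have e2 := abs_coord_sub_le v v₀ 2
  rw [h0] at e0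
  rw [h1, sub_zero] at e1
  rw [h2, sub_zero] at e2
  linarith

/-- Weak partial derivatives are unique. -/
lemma IsWeakPartial.unique {n : ℕ} {Ω : Set (E n)} (hΩ : IsOpen Ω) {i : Fin n}
    {u v v' : E n → E n} (h : IsWeakPartial Ω i u v) (h' : IsWeakPartial Ω i u v')
    (hv : Integrable v (volume.restrict Ω)) (hv' : Integrable v' (volume.restrict Ω)) :
    v =ᵐ[volume.restrict Ω] v' := by
  have hloc : LocallyIntegrableOn (fun x => v x - v' x) Ω volume := by
    refine IntegrableOn.locallyIntegrableOn ?_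
    exact hv.sub hv'
  have key := hΩ.ae_eq_zero_of_integral_contDiff_smul_eq_zero (μ := volume) hloc ?_
  · rw [EventuallyEq, ae_restrict_iff' hΩ.measurableSet]
    filter_upwards [key] with x hx hxΩ
    exact sub_eq_zero.1 (hx hxΩ)
  · intro φ h1 h2 h3
    have hφ0 : ∀ x ∉ Ω, φ x • (v x - v' x) = 0 := fun x hx => by
      rw [image_eq_zero_of_notMem_tsupport fun hcon => hx (h3 hcon), zero_smul]
    rw [← setIntegral_eq_integral_of_forall_compl_eq_zero hφ0]
    have hb : ∀ {w : E n → E n}, Integrable w (volume.restrict Ω) →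
        Integrable (fun x => φ x • w x) (volume.restrict Ω) := by
      intro w hw
      obtain ⟨C, hC⟩ := h1.continuous.bounded_above_of_compact_support h2
      exact hw.bdd_smul C h1.continuous.aestronglyMeasurable (Eventually.of_forall hC)
    have e : ∫ x in Ω, φ x • (v x - v' x) =
        (∫ x in Ω, φ x • v x) - ∫ x in Ω, φ x • v' x := by
      rw [← integral_sub (hb hv) (hb hv')]
      simp only [smul_sub]
    have e1 := h φ h1 h2 h3
    have e2 := h' φ h1 h2 h3
    rw [e, sub_eq_zero]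
    exact neg_injective (e1.symm.trans e2)

theorem Gmap_mem_closure_ae (m : ℕ) :
    ∀ᵐ x ∂((volume : Measure (E (m + 3))).restrict (wedge m)),
      Gmap 0 x ∈ closure (shearHomeo m '' wedge m) := by
  filter_upwards [ae_restrict_mem (μ := (volume : Measure (E (m + 3))))
    (isOpen_wedge m).measurableSet] with x hx
  exact Gmap_mem_closure hx

theorem Gmap_mem_weakClosure (m : ℕ) (p : ℝ≥0∞) [Fact (1 ≤ p)] (hp : p ≠ ⊤) :
    Gmap 0 ∈ weakClosure p (wedge m) (shearHomeo m '' wedge m) := by
  have hpos : ∀ k : ℕ, (0 : ℝ) < 1 / ((k : ℝ) + 1) := fun k => by positivity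
  have hle : ∀ k : ℕ, 1 / ((k : ℝ) + 1) ≤ 1 := by
    intro k
    rw [div_le_one (by positivity)]
    have : (0 : ℝ) ≤ k := Nat.cast_nonneg k
    linarith
  exact ⟨lipDeriv (Gmap 0), fun k => Gmap (1 / ((k : ℝ) + 1)),
    fun k => lipDeriv (Gmap (1 / ((k : ℝ) + 1))),
    (coordLip_Gmap le_rfl zero_le_one).isSobolev (isOpen_wedge m) (isBounded_wedge m) p,
    Gmap_mem_closure_ae m,
    fun k => ⟨(coordLip_Gmap (hpos k).le (hle k)).isSobolev (isOpen_wedge m) (isBounded_wedge m) p,
      isHomeoOnto_Gmap (hpos k) (hle k)⟩,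
    weakConv_fun hp (fun k => coordLip_Gmap (hpos k).le (hle k))
      (coordLip_Gmap le_rfl zero_le_one) tendsto_Gmap (isOpen_wedge m) (isBounded_wedge m),
    weakConv_deriv hp (fun k => coordLip_Gmap (hpos k).le (hle k))
      (coordLip_Gmap le_rfl zero_le_one) tendsto_Gmap (isOpen_wedge m) (isBounded_wedge m)⟩

theorem Gmap_notMem_strongClosure (m : ℕ) (p : ℝ≥0∞) [hp1 : Fact (1 ≤ p)] :
    Gmap 0 ∉ strongClosure p (wedge m) (shearHomeo m '' wedge m) := by
  rintro ⟨U, w, W, hU, -, hw, hlim1, hlim2⟩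
  have hfinm := isFiniteMeasure_restrict_of_bounded (isBounded_wedge m)
  have hΩm : MeasurableSet (wedge m) := (isOpen_wedge m).measurableSet
  have hG := coordLip_Gmap (m := m) le_rfl zero_le_one
  set μ := (volume : Measure (E (m + 3))).restrict (wedge m) with hμ
  have ha := tendsto_integral_norm_sub hp1.out (fun k => (hw k).1.1) hU.1 hlim1
  have hb := tendsto_integral_norm_sub hp1.out (fun k => (hw k).1.2.1) hU.2.1 hlim2
  have iU₀ : Integrable U μ := hU.2.1.integrable hp1.out
  have iU₀v : Integrable (fun x => U x (stdVec 0)) μ :=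
    (ContinuousLinearMap.apply ℝ (E (m + 3)) (stdVec 0)).integrable_comp iU₀
  have hU0 : (fun x => U x (stdVec 0)) =ᵐ[μ] lipPartial (Gmap 0) 0 :=
    IsWeakPartial.unique (isOpen_wedge m) (hU.2.2.isWeakPartial 0) (hG.isWeakPartial _ 0) iU₀v
      ((hG.memLp_partial (isBounded_wedge m) 0 1).integrable le_rfl)
  set K := closedBall (centre m) (1 / 16) with hK
  have hKΩ : K ⊆ wedge m := fun x hx => (ball_sub x hx).1
  have hKm : MeasurableSet K := measurableSet_closedBall
  have hle : ∀ k, volume.real (closedBall (centre m) (1 / 64)) / 32 ≤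
      6 * (∫ x, ‖W k x - U x‖ ∂μ) + 16 * ∫ x, ‖w k x - Gmap 0 x‖ ∂μ := by
    intro k
    obtain ⟨⟨hw1, hw2, hw3⟩, ⟨e, he⟩⟩ := hw k
    have hcont : ContinuousOn (w k) (wedge m) := by
      rw [continuousOn_iff_continuous_domRestrict]
      have : (wedge m).domRestrict (w k) = fun x => (e x : E (m + 3)) := by
        ext1 x
        exact he x
      rw [this]
      exact continuous_subtype_val.comp e.continuous
    have htube : ∀ x ∈ wedge m, w k x ∈ tube m := by
      intro x hx
      rw [he ⟨x, hx⟩]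
      obtain ⟨y, hy, hyx⟩ := (e ⟨x, hx⟩).2
      rw [← hyx]
      exact shear_mem_tube hy
    have hweak : IsWeakPartial (wedge m) 0 (w k) (fun x => W k x (stdVec 0)) :=
      hw3.isWeakPartial 0
    have iU : Integrable (W k) μ := hw2.integrable hp1.out
    have iw : Integrable (w k) μ := hw1.integrable hp1.out
    have iUv : Integrable (fun x => W k x (stdVec 0)) μ :=
      (ContinuousLinearMap.apply ℝ (E (m + 3)) (stdVec 0)).integrable_comp iU
    have iw₀ : Integrable (Gmap 0) μ := hU.1.integrable hp1.out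
    have hrestr : μ.restrict K = volume.restrict K := by
      rw [hμ, Measure.restrict_restrict_of_subset hKΩ]
    have hUK : IntegrableOn (fun x => W k x (stdVec 0)) K := by
      have : IntegrableOn (fun x => W k x (stdVec 0)) K μ := iUv.integrableOn
      unfold IntegrableOn at this ⊢
      rwa [hrestr] at this
    have hkey := key_inequality hcont hweak (c := centre m) (r := 1 / 64) (L := 1 / 64)
      (R := 1 / 16) (by norm_num) (by norm_num) (by norm_num) hKΩ hUK
      (fun x hx => htube x (hKΩ hx))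
    refine hkey.trans ?_
    have hF : Integrable (fun x => 6 * ‖W k x - U x‖ + 16 * ‖w k x - Gmap 0 x‖) μ :=
      ((iU.sub iU₀).norm.const_mul 6).add ((iw.sub iw₀).norm.const_mul 16)
    have hrhs : 6 * (∫ x, ‖W k x - U x‖ ∂μ) + 16 * (∫ x, ‖w k x - Gmap 0 x‖ ∂μ) =
        ∫ x, (6 * ‖W k x - U x‖ + 16 * ‖w k x - Gmap 0 x‖) ∂μ := by
      rw [← integral_const_mul, ← integral_const_mul]
      exact (integral_add ((iU.sub iU₀).norm.const_mul 6) ((iw.sub iw₀).norm.const_mul 16)).symm
    rw [hrhs]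
    have hKle : ∫ x in K, (6 * ‖W k x - U x‖ + 16 * ‖w k x - Gmap 0 x‖) ∂μ ≤
        ∫ x, (6 * ‖W k x - U x‖ + 16 * ‖w k x - Gmap 0 x‖) ∂μ :=
      setIntegral_le_integral hF (Eventually.of_forall fun x => by positivity)
    refine le_trans ?_ hKle
    rw [← hrestr]
    refine integral_mono_of_nonneg ?_ hF.integrableOn ?_
    · refine (ae_restrict_of_forall_mem hKm fun x hx => ?_)
      have h3 := (htube x (hKΩ hx)).1
      have h4 := devAt_nonneg (W k x (stdVec 0))
      simp only [Pi.zero_apply]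
      positivity
    · have hae : ∀ {P : E (m + 3) → Prop}, (∀ᵐ x ∂μ, P x) → ∀ᵐ x ∂(μ.restrict K), P x :=
        fun h => ae_restrict_of_ae h
      filter_upwards [ae_restrict_mem hKm, hae hU0] with x hxK hx3
      have hcl : cl x ≤ 1 / 2 := by
        rw [cl_of_wedge (hKΩ hxK)]
        exact (ball_sub x hxK).2
      obtain ⟨d0, d1, d2⟩ := devAt_partial_zero hcl
      have hd : devAt (W k x (stdVec 0)) ≤ 3 * ‖W k x - U x‖ := by
        refine (devAt_le_norm_sub d0 d1 d2).trans ?_
        have h6 := (W k x - U x).le_opNorm (stdVec 0)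
        rw [_root_.sub_apply, hx3, norm_stdVec, mul_one] at h6
        linarith
      have hg1 : w k x 1 ≤ ‖w k x - Gmap 0 x‖ := by
        have h5 := abs_coord_sub_le (w k x) (Gmap 0 x) 1
        rw [(Gmap_zero_collapsed hcl).1, sub_zero] at h5
        exact (le_abs_self _).trans h5
      have e4 : (4 * (1 / 64 : ℝ))⁻¹ = 16 := by norm_num
      rw [e4]
      linarith
  have hlim0 : Tendsto (fun k => 6 * (∫ x, ‖W k x - U x‖ ∂μ) +
        16 * ∫ x, ‖w k x - Gmap 0 x‖ ∂μ) atTop (𝓝 0) := by
    have := (hb.const_mul 6).add (ha.const_mul 16)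
    simpa using this
  have hfin : volume.real (closedBall (centre m) (1 / 64)) / 32 ≤ 0 := ge_of_tendsto' hlim0 hle
  have hpos : 0 < volume.real (closedBall (centre m) (1 / 64)) := by
    rw [measureReal_def]
    refine ENNReal.toReal_pos ?_ (isCompact_closedBall _ _).measure_ne_top
    exact (measure_closedBall_pos volume (centre m) (by norm_num)).ne'
  linarith

end Pool.Agent.SobClos
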